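import Mathlib

/-!
Generic continuity with a uniform modulus on Cantor space.
-/

set_option autoImplicit false
set_option maxHeartbeats 400000
set_option linter.unusedVariables false

namespace Pool.Agent.Lib.MP_324817_lc

abbrev X := ℕ → Bool

def Cyl (x : X) (L : ℕ) : Set X := {y | ∀ i < L, y i = x i}

theorem cyl_eq (x : X) (L : ℕ) : Cyl x L = PiNat.cylinder (E := fun _ => Bool) x L := by
  ext y; simp [Cyl, PiNat.mem_cylinder_iff]

theorem isOpen_cyl (x : X) (L : ℕ) : IsOpen (Cyl x L) := by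
  rw [cyl_eq]; exact PiNat.isOpen_cylinder _ x L

theorem exists_cyl {O : Set X} (hO : IsOpen O) {x : X} (hx : x ∈ O) : ∃ L, Cyl x L ⊆ O := by
  obtain ⟨v, ⟨y, L, rfl⟩, h1, h2⟩ :=
    (PiNat.isTopologicalBasis_cylinders (fun _ => Bool)).exists_subset_of_mem_open hx hO
  refine ⟨L, ?_⟩
  rw [cyl_eq, PiNat.mem_cylinder_iff_eq.1 h1]
  exact h2

theorem cyl_mono {x y : X} {L L' : ℕ} (hL : L ≤ L') (h : ∀ i < L, y i = x i) :
    Cyl y L' ⊆ Cyl x L := fun z hz i hi => by rw [hz i (by omega), h i hi]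

/-- One block that works below every initial segment of length `l`. -/
theorem block (G : X → ℕ → Prop)
    (hmono : ∀ x y L L', L ≤ L' → (∀ i < L, y i = x i) → G x L → G y L')
    (hd : ∀ (p : X) (l : ℕ), ∃ (q : X) (L : ℕ), (∀ i < l, q i = p i) ∧ G q L) (l : ℕ) :
    ∃ l', l < l' ∧ ∃ s : X, ∀ x : X, (∀ i, l ≤ i → i < l' → x i = s i) → G x l' := by
  classical
  have key : ∀ T : Finset (Fin l → Bool), ∃ l', l < l' ∧ ∃ s : X, ∀ τ ∈ T, ∀ x : X,
      (∀ i : Fin l, x i = τ i) → (∀ i, l ≤ i → i < l' → x i = s i) → G x l' := by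
    intro T
    induction T using Finset.induction_on with
    | empty => exact ⟨l + 1, by omega, fun _ => true, by simp⟩
    | insert τ T _ ih =>
      obtain ⟨l', hl, s, hs⟩ := ih
      obtain ⟨q, L, hq, hG⟩ := hd (fun i => if h : i < l then τ ⟨i, h⟩ else s i) l'
      refine ⟨max l' L, by omega, q, fun τ' hτ' x hx1 hx2 => ?_⟩
      rcases Finset.mem_insert.1 hτ' with rfl | hτ'
      · refine hmono q x L _ (by omega) (fun i hi => ?_) hG
        by_cases h : i < l
        · rw [hq i (by omega), dif_pos h]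
          exact hx1 ⟨i, h⟩
        · exact hx2 i (by omega) (by omega)
      · refine hmono x x l' _ (by omega) (fun _ _ => rfl) (hs τ' hτ' x hx1 (fun i h1 h2 => ?_))
        rw [hx2 i h1 (by omega), hq i h2, dif_neg (by omega)]
  obtain ⟨l', hl, s, hs⟩ := key Finset.univ
  exact ⟨l', hl, s, fun x hx => hs (fun i => x i) (Finset.mem_univ _) x (fun _ => rfl) hx⟩

theorem generic_continuity (f : X → ℕ → ℕ)
    (hf : ∀ n a, MeasurableSet {x : X | f x n = a}) :
    ∃ (xs ys : X → X) (μ : ℕ → ℕ), (∀ u i, xs u i ≠ ys u i ↔ u i = true) ∧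
      ∀ u u' n, (∀ i < μ n, u i = u' i) →
        f (xs u) n = f (xs u') n ∧ f (ys u) n = f (ys u') n := by
  classical
  choose O hO hO' using fun n a => (hf n a).residualEq_isOpen
  have hC : {x : X | ∀ n a, (f x n = a ↔ x ∈ O n a)} ∈ residual X := by
    have : ∀ᶠ x in residual X, ∀ n a, (f x n = a ↔ x ∈ O n a) := by
      rw [eventually_countable_forall]
      intro n
      rw [eventually_countable_forall]
      intro a
      exact (hO' n a).mono (fun x hx => Iff.of_eq hx)
    exact this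
  obtain ⟨S, hS1, hS2, hS3, hS4⟩ := mem_residual_iff.1 hC
  obtain ⟨V, hV⟩ := (hS3.insert Set.univ).exists_eq_range (Set.insert_nonempty _ _)
  have hV1 : ∀ j, IsOpen (V j) ∧ Dense (V j) := by
    intro j
    have : V j ∈ insert Set.univ S := hV ▸ Set.mem_range_self j
    rcases this with h | h
    · rw [h]; exact ⟨isOpen_univ, dense_univ⟩
    · exact ⟨hS1 _ h, hS2 _ h⟩
  have hV2 : ∀ x, (∀ j, x ∈ V j) → ∀ n a, (f x n = a ↔ x ∈ O n a) := by
    intro x hx
    apply hS4
    intro t ht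
    have : t ∈ Set.range V := hV ▸ Set.mem_insert_of_mem _ ht
    obtain ⟨j, rfl⟩ := this
    exact hx j
  let G : ℕ → X → ℕ → Prop := fun k x L =>
    ∀ j ≤ k, Cyl x L ⊆ V j ∧ ∃ a, Cyl x L ⊆ O j a
  have hmono : ∀ k x y L L', L ≤ L' → (∀ i < L, y i = x i) → G k x L → G k y L' := by
    intro k x y L L' hL h hG j hj
    obtain ⟨h1, a, h2⟩ := hG j hj
    exact ⟨(cyl_mono hL h).trans h1, a, (cyl_mono hL h).trans h2⟩
  have hd : ∀ (k : ℕ) (p : X) (l : ℕ), ∃ (q : X) (L : ℕ), (∀ i < l, q i = p i) ∧ G k q L := by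
    intro k p l
    have hden : Dense (⋂ j, V j) :=
      dense_iInter_of_isOpen (fun j => (hV1 j).1) (fun j => (hV1 j).2)
    obtain ⟨q, hq1, hq2⟩ := hden.exists_mem_open (isOpen_cyl p l) ⟨p, fun _ _ => rfl⟩
    rw [Set.mem_iInter] at hq1
    have hop : IsOpen (⋂ j ∈ Finset.range (k + 1), (V j ∩ O j (f q j))) :=
      isOpen_biInter_finset (fun j _ => (hV1 j).1.inter (hO j _))
    obtain ⟨L, hL⟩ := exists_cyl hop (x := q) (by
      simp only [Set.mem_iInter]
      exact fun j _ => ⟨hq1 j, (hV2 q hq1 j _).1 rfl⟩)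
    refine ⟨q, L, hq2, fun j hj => ?_⟩
    have : Cyl q L ⊆ V j ∩ O j (f q j) :=
      hL.trans (Set.biInter_subset_of_mem (Finset.mem_range.2 (by omega)))
    exact ⟨this.trans Set.inter_subset_left, _, this.trans Set.inter_subset_right⟩
  choose nl hnl ss hss using fun k l => block (G k) (hmono k) (hd k) l
  let l : ℕ → ℕ := fun k => Nat.rec 0 (fun k L => nl k L) k
  have hl : ∀ k, l (k + 1) = nl k (l k) := fun k => rfl
  have hlt : StrictMono l := strictMono_nat_of_lt_succ (fun k => hnl k (l k))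
  have hex : ∀ i, ∃ k, i < l (k + 1) := fun i => ⟨i, hlt.id_le (i + 1)⟩
  let idx : ℕ → ℕ := fun i => Nat.find (hex i)
  have hidx : ∀ k i, l k ≤ i → i < l (k + 1) → idx i = k := by
    intro k i h1 h2
    refine (Nat.find_eq_iff (hex i)).2 ⟨h2, fun m hm => ?_⟩
    have := hlt.monotone (show m + 1 ≤ k by omega)
    omega
  let s : X := fun i => ss (idx i) (l (idx i)) i
  let mk : ℕ → X → X := fun r u i => if idx i % 2 = r then s i else xor (s i) (u i)
  have hG : ∀ r u k, k % 2 = r → G k (mk r u) (l (k + 1)) := by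
    intro r u k hk
    apply hss k (l k)
    intro i h1 h2
    have := hidx k i h1 h2
    simp only [mk, s, this, if_pos hk]
  have hin : ∀ r, r < 2 → ∀ u j, mk r u ∈ V j := by
    intro r hr u j
    exact (hG r u (2 * j + r) (by omega) j (by omega)).1 (fun _ _ => rfl)
  have hmod : ∀ r, r < 2 → ∀ u u' n, (∀ i < l (2 * n + 2), u i = u' i) →
      f (mk r u) n = f (mk r u') n := by
    intro r hr u u' n h
    obtain ⟨a, ha⟩ := (hG r u (2 * n + r) (by omega) n (by omega)).2
    have hle : l (2 * n + r + 1) ≤ l (2 * n + 2) := hlt.monotone (show 2 * n + r + 1 ≤ 2 * n + 2 by omega)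
    rw [(hV2 _ (hin r hr u) n a).2 (ha (fun _ _ => rfl)),
      (hV2 _ (hin r hr u') n a).2 (ha (fun i hi => ?_))]
    simp only [mk, h i (by omega)]
  refine ⟨mk 0, mk 1, fun n => l (2 * n + 2), fun u i => ?_, fun u u' n h =>
    ⟨hmod 0 (by omega) u u' n h, hmod 1 (by omega) u u' n h⟩⟩
  simp only [mk]
  rcases Nat.mod_two_eq_zero_or_one (idx i) with h | h <;> cases s i <;> cases u i <;> simp [h]

end Pool.Agent.Lib.MP_324817_lc
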