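import Mathlib

/-!
Total oracle functionals and computable maps between represented spaces.
-/

set_option autoImplicit false
set_option linter.unusedVariables false

namespace Pool.Agent.Lib.MP_324817_lc

abbrev R := ℕ → ℕ

/-- Functionals obtained from computable functions and the oracle by pairing, composition and
primitive recursion. -/
inductive Good : (R → ℕ → ℕ) → Prop
  | cf (f : ℕ → ℕ) (hf : Computable f) : Good (fun _ a => f a)
  | orc : Good (fun x a => x a)
  | pair {s t : R → ℕ → ℕ} : Good s → Good t → Good (fun x a => Nat.pair (s x a) (t x a))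
  | app {t s : R → ℕ → ℕ} : Good t → Good s → Good (fun x a => t x (s x a))
  | prec {s t : R → ℕ → ℕ} : Good s → Good t →
      Good (fun x a => Nat.rec (motive := fun _ => ℕ) (s x a.unpair.1)
        (fun k ih => t x (Nat.pair a.unpair.1 (Nat.pair k ih))) a.unpair.2)

theorem Good.of_eq {s t : R → ℕ → ℕ} (h : Good s) (e : ∀ x a, s x a = t x a) : Good t := by
  have : s = t := by funext x a; exact e x a
  exact this ▸ h

theorem c_fst : Computable (fun a : ℕ => a.unpair.1) :=
  Computable.fst.comp Computable.unpair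

theorem c_snd : Computable (fun a : ℕ => a.unpair.2) :=
  Computable.snd.comp Computable.unpair

theorem c_pair {α : Type} [Primcodable α] {f g : α → ℕ} (hf : Computable f) (hg : Computable g) :
    Computable (fun a => Nat.pair (f a) (g a)) :=
  Primrec₂.natPair.to_comp.comp hf hg

theorem Good.arg : Good (fun _ a => a) := Good.cf _ Computable.id
theorem Good.const (n : ℕ) : Good (fun _ _ => n) := Good.cf _ (Computable.const n)
theorem Good.post {s : R → ℕ → ℕ} (hs : Good s) {f : ℕ → ℕ} (hf : Computable f) :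
    Good (fun x a => f (s x a)) := Good.app (Good.cf f hf) hs
theorem Good.pre {s : R → ℕ → ℕ} (hs : Good s) {f : ℕ → ℕ} (hf : Computable f) :
    Good (fun x a => s x (f a)) := Good.app hs (Good.cf f hf)

/-- Substitution of a functional, with a number parameter, for the oracle. -/
theorem Good.psubst {t s : R → ℕ → ℕ} (ht : Good t) (hs : Good s) :
    Good (fun x a => t (fun b => s x (Nat.pair a.unpair.1 b)) a.unpair.2) := by
  induction ht with
  | cf f hf => exact Good.cf _ (hf.comp c_snd)
  | orc => exact hs.of_eq (fun x a => by simp)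
  | pair _ _ ih1 ih2 => exact Good.pair ih1 ih2
  | app _ _ ih1 ih2 =>
    exact (Good.app ih1 (Good.pair (Good.cf _ c_fst) ih2)).of_eq (fun x a => by simp)
  | prec _ _ ih1 ih2 =>
    have h2 := ih2.pre (f := fun b => Nat.pair b.unpair.1.unpair.1
      (Nat.pair b.unpair.1.unpair.2 b.unpair.2))
      (c_pair (c_fst.comp c_fst) (c_pair (c_snd.comp c_fst) c_snd))
    have h3 := (Good.prec ih1 h2).pre (f := fun a => Nat.pair
      (Nat.pair a.unpair.1 a.unpair.2.unpair.1) a.unpair.2.unpair.2)
      (c_pair (c_pair c_fst (c_fst.comp c_snd)) (c_snd.comp c_snd))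
    exact h3.of_eq (fun x a => by simp)

theorem Good.subst {t s : R → ℕ → ℕ} (ht : Good t) (hs : Good s) :
    Good (fun x a => t (s x) a) :=
  ((ht.psubst (hs.pre c_snd)).pre (f := fun a => Nat.pair 0 a)
    (c_pair (Computable.const 0) Computable.id)).of_eq (fun x a => by simp)

theorem Good.continuous {t : R → ℕ → ℕ} (ht : Good t) (a : ℕ) :
    Continuous (fun x => t x a) := by
  induction ht generalizing a with
  | cf f hf => exact continuous_const
  | orc => exact continuous_apply a
  | @pair s t _ _ ih1 ih2 =>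
    exact (continuous_of_discreteTopology (f := fun p : ℕ × ℕ => Nat.pair p.1 p.2)).comp
      ((ih1 a).prodMk (ih2 a))
  | @app t s _ _ ih1 ih2 =>
    have : Continuous (fun p : R × ℕ => t p.1 p.2) := continuous_prod_of_discrete_right.2 ih1
    exact this.comp (continuous_id.prodMk (ih2 a))
  | @prec s t _ _ ih1 ih2 =>
    have h : Continuous (fun p : R × ℕ => t p.1 p.2) := continuous_prod_of_discrete_right.2 ih2
    simp only
    generalize a.unpair.2 = k
    induction k with
    | zero => exact ih1 _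
    | succ k ih =>
      exact h.comp (continuous_id.prodMk
        ((continuous_of_discreteTopology
          (f := fun i : ℕ => Nat.pair a.unpair.1 (Nat.pair k i))).comp ih))

theorem Good.computable {t : R → ℕ → ℕ} (ht : Good t) :
    Computable₂ (fun n a : ℕ => t (fun _ => n) a) := by
  induction ht with
  | cf f hf => exact hf.comp Computable.snd
  | orc => exact Computable.fst
  | pair _ _ ih1 ih2 => exact c_pair ih1 ih2
  | app _ _ ih1 ih2 =>
    have := Computable₂.comp ih1 Computable.fst ih2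
    exact this
  | @prec s t _ _ ih1 ih2 =>
    have h1 := Computable₂.comp (α := ℕ × ℕ) ih1 Computable.fst (c_fst.comp Computable.snd)
    have h2 := Computable₂.comp (α := (ℕ × ℕ) × ℕ × ℕ) ih2 (Computable.fst.comp Computable.fst)
        (c_pair (c_fst.comp (Computable.snd.comp Computable.fst))
          (c_pair (Computable.fst.comp Computable.snd) (Computable.snd.comp Computable.snd)))
    have := Computable.nat_rec (α := ℕ × ℕ) (f := fun p => p.2.unpair.2)
      (g := fun p => s (fun _ => p.1) p.2.unpair.1)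
      (h := fun p q => t (fun _ => p.1) (Nat.pair p.2.unpair.1 (Nat.pair q.1 q.2)))
      (c_snd.comp Computable.snd) h1 h2
    exact this

def join (x y : R) : R := fun n => if n % 2 = 0 then x (n / 2) else y (n / 2)
def left (x : R) : R := fun n => x (2 * n)
def right (x : R) : R := fun n => x (2 * n + 1)
def cst (n : ℕ) : R := fun _ => n
def ap (x : R) (n : ℕ) : ℕ := x n
def cz (c a b : ℕ) : ℕ := if c = 0 then a else b

@[simp] theorem left_join (x y : R) : left (join x y) = x := by
  funext n; simp [left, join]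

@[simp] theorem right_join (x y : R) : right (join x y) = y := by
  funext n
  have h1 : (2 * n + 1) % 2 ≠ 0 := by omega
  have h2 : (2 * n + 1) / 2 = n := by omega
  simp [right, join, h2]

theorem c_cz : Computable (fun a : ℕ => cz a.unpair.1 a.unpair.2.unpair.1 a.unpair.2.unpair.2) := by
  have : Primrec (fun a : ℕ => if a.unpair.1 = 0 then a.unpair.2.unpair.1
      else a.unpair.2.unpair.2) :=
    Primrec.ite (Primrec.eq.comp (Primrec.fst.comp Primrec.unpair) (Primrec.const 0))
      (Primrec.fst.comp (Primrec.unpair.comp (Primrec.snd.comp Primrec.unpair)))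
      (Primrec.snd.comp (Primrec.unpair.comp (Primrec.snd.comp Primrec.unpair)))
  exact this.to_comp

theorem Good.cz {c s t : R → ℕ → ℕ} (hc : Good c) (hs : Good s) (ht : Good t) :
    Good (fun x a => cz (c x a) (s x a) (t x a)) :=
  ((Good.pair hc (Good.pair hs ht)).post c_cz).of_eq (fun x a => by simp)

theorem Good.join {s t : R → ℕ → ℕ} (hs : Good s) (ht : Good t) :
    Good (fun x a => join (s x) (t x) a) := by
  have h1 : Computable (fun a : ℕ => a % 2) :=
    (Primrec.nat_mod.comp Primrec.id (Primrec.const 2)).to_comp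
  have h2 : Computable (fun a : ℕ => a / 2) :=
    (Primrec.nat_div.comp Primrec.id (Primrec.const 2)).to_comp
  exact (Good.cz (Good.cf _ h1) (hs.pre h2) (ht.pre h2)).of_eq (fun x a => rfl)

theorem Good.left : Good (fun x a => left x a) :=
  Good.orc.pre (f := fun a => 2 * a) (Primrec.nat_mul.comp (Primrec.const 2) Primrec.id).to_comp

theorem Good.right : Good (fun x a => right x a) :=
  Good.orc.pre (f := fun a => 2 * a + 1)
    (Primrec.succ.comp (Primrec.nat_mul.comp (Primrec.const 2) Primrec.id)).to_comp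

/-- Represented spaces. -/
class Rep (α : Type) where
  enc : α → R

instance : Rep ℕ := ⟨cst⟩
instance : Rep R := ⟨id⟩
instance {α β : Type} [Rep α] [Rep β] : Rep (α × β) :=
  ⟨fun p => join (Rep.enc p.1) (Rep.enc p.2)⟩

variable {α β γ : Type} [Rep α] [Rep β] [Rep γ]

/-- Computable maps between represented spaces. -/
@[fun_prop]
def Cm (f : α → β) : Prop := ∃ t, Good t ∧ ∀ a, Rep.enc (f a) = t (Rep.enc a)

@[fun_prop]
theorem Cm.id : Cm (fun a : α => a) := ⟨_, Good.orc, fun _ => rfl⟩

@[fun_prop]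
theorem Cm.const (n : ℕ) : Cm (fun _ : α => n) := ⟨_, Good.const n, fun _ => rfl⟩

@[fun_prop]
theorem Cm.comp {f : β → γ} {g : α → β} (hf : Cm f) (hg : Cm g) : Cm (fun a => f (g a)) := by
  obtain ⟨t, ht, e⟩ := hf
  obtain ⟨s, hs, e'⟩ := hg
  exact ⟨_, ht.subst hs, fun a => by rw [e, e']⟩

@[fun_prop]
theorem Cm.fst {f : α → β × γ} (hf : Cm f) : Cm (fun a => (f a).1) :=
  Cm.comp (f := Prod.fst) ⟨_, Good.left, fun a => (left_join _ _).symm⟩ hf

@[fun_prop]
theorem Cm.snd {f : α → β × γ} (hf : Cm f) : Cm (fun a => (f a).2) :=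
  Cm.comp (f := Prod.snd) ⟨_, Good.right, fun a => (right_join _ _).symm⟩ hf

@[fun_prop]
theorem Cm.prodMk {f : α → β} {g : α → γ} (hf : Cm f) (hg : Cm g) :
    Cm (fun a => (f a, g a)) := by
  obtain ⟨t, ht, e⟩ := hf
  obtain ⟨s, hs, e'⟩ := hg
  refine ⟨_, ht.join hs, fun a => ?_⟩
  change join (Rep.enc (f a)) (Rep.enc (g a)) = _
  rw [e, e']

@[fun_prop]
theorem Cm.ap {f : α → R} {g : α → ℕ} (hf : Cm f) (hg : Cm g) :
    Cm (fun a => ap (f a) (g a)) := by
  obtain ⟨t, ht, e⟩ := hf
  obtain ⟨s, hs, e'⟩ := hg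
  refine ⟨_, Good.app ht (Good.app hs (Good.const 0)), fun a => ?_⟩
  funext n
  rw [← e, ← e']
  rfl

theorem Cm.lam {f : α → R} (hf : Cm (fun p : α × ℕ => f p.1 p.2)) : Cm f := by
  obtain ⟨t, ht, e⟩ := hf
  have h1 : Good (fun x b => join x (cst b.unpair.1) b.unpair.2) := by
    have h1 : Computable (fun a : ℕ => a.unpair.2 % 2) :=
      (Primrec.nat_mod.comp Primrec.id (Primrec.const 2)).to_comp.comp c_snd
    have h2 : Computable (fun a : ℕ => a.unpair.2 / 2) :=
      (Primrec.nat_div.comp Primrec.id (Primrec.const 2)).to_comp.comp c_snd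
    exact (Good.cz (Good.cf _ h1) (Good.orc.pre h2) (Good.cf _ c_fst)).of_eq (fun x a => rfl)
  refine ⟨_, (ht.psubst h1).pre (f := fun a => Nat.pair a 0)
    (c_pair Computable.id (Computable.const 0)), fun a => ?_⟩
  funext n
  have := congrFun (e (a, n)) 0
  simp only [Nat.unpair_pair]
  exact this

theorem Cm.of_good {t : R → R} (ht : Good t) : Cm t := ⟨t, ht, fun _ => rfl⟩

theorem Cm.good {t : R → R} (ht : Cm t) : Good t := by
  obtain ⟨s, hs, e⟩ := ht
  exact hs.of_eq (fun x a => (congrFun (e x) a).symm)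

theorem Cm.of_computable {f : ℕ → ℕ} (hf : Computable f) : Cm f :=
  ⟨_, (Good.app Good.orc (Good.const 0)).post hf, fun _ => rfl⟩

theorem Cm.computable {f : ℕ → ℕ} (hf : Cm f) : Computable f := by
  obtain ⟨t, ht, e⟩ := hf
  refine (Computable₂.comp ht.computable Computable.id (Computable.const 0)).of_eq (fun n => ?_)
  exact (congrFun (e n) 0).symm

@[fun_prop]
theorem Cm.natPair {f g : α → ℕ} (hf : Cm f) (hg : Cm g) :
    Cm (fun a => Nat.pair (f a) (g a)) := by
  obtain ⟨t, ht, e⟩ := hf
  obtain ⟨s, hs, e'⟩ := hg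
  refine ⟨_, Good.pair ht hs, fun a => ?_⟩
  funext n
  rw [← e, ← e']
  rfl

theorem Cm.of_computable₂ {F : ℕ → ℕ → ℕ} (hF : Computable₂ F) {f g : α → ℕ} (hf : Cm f)
    (hg : Cm g) : Cm (fun a => F (f a) (g a)) := by
  have := (Cm.of_computable (hF.comp c_fst c_snd)).comp (hf.natPair hg)
  simpa using this

def p1 (n : ℕ) : ℕ := n.unpair.1
def p2 (n : ℕ) : ℕ := n.unpair.2

@[simp] theorem p1_pair (a b : ℕ) : p1 (Nat.pair a b) = a := by simp [p1]
@[simp] theorem p2_pair (a b : ℕ) : p2 (Nat.pair a b) = b := by simp [p2]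

@[fun_prop]
theorem Cm.p1 {f : α → ℕ} (hf : Cm f) : Cm (fun a => p1 (f a)) :=
  (Cm.of_computable c_fst).comp hf

@[fun_prop]
theorem Cm.p2 {f : α → ℕ} (hf : Cm f) : Cm (fun a => p2 (f a)) :=
  (Cm.of_computable c_snd).comp hf

@[fun_prop]
theorem Cm.add {f g : α → ℕ} (hf : Cm f) (hg : Cm g) : Cm (fun a => f a + g a) :=
  Cm.of_computable₂ Primrec.nat_add.to_comp hf hg

@[fun_prop]
theorem Cm.sub {f g : α → ℕ} (hf : Cm f) (hg : Cm g) : Cm (fun a => f a - g a) :=
  Cm.of_computable₂ Primrec.nat_sub.to_comp hf hg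

@[fun_prop]
theorem Cm.mul {f g : α → ℕ} (hf : Cm f) (hg : Cm g) : Cm (fun a => f a * g a) :=
  Cm.of_computable₂ Primrec.nat_mul.to_comp hf hg

@[fun_prop]
theorem Cm.cz {c f g : α → ℕ} (hc : Cm c) (hf : Cm f) (hg : Cm g) :
    Cm (fun a => cz (c a) (f a) (g a)) := by
  have := (Cm.of_computable c_cz).comp (hc.natPair (hf.natPair hg))
  simpa using this

@[fun_prop]
theorem Cm.join {f g : α → R} (hf : Cm f) (hg : Cm g) : Cm (fun a => join (f a) (g a)) := by
  obtain ⟨t, ht, e⟩ := hf.prodMk hg
  exact ⟨t, ht, e⟩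

@[fun_prop]
theorem Cm.left {f : α → R} (hf : Cm f) : Cm (fun a => left (f a)) :=
  (Cm.of_good Good.left).comp hf

@[fun_prop]
theorem Cm.right {f : α → R} (hf : Cm f) : Cm (fun a => right (f a)) :=
  (Cm.of_good Good.right).comp hf

@[fun_prop]
theorem Cm.cst {f : α → ℕ} (hf : Cm f) : Cm (fun a => cst (f a)) := by
  obtain ⟨t, ht, e⟩ := hf
  exact ⟨t, ht, e⟩

def col (w : R) (i : ℕ) : R := fun j => w (Nat.pair i j)

@[fun_prop]
theorem Cm.col {f : α → R} {g : α → ℕ} (hf : Cm f) (hg : Cm g) :
    Cm (fun a => col (f a) (g a)) := by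
  apply Cm.lam
  change Cm (fun p : α × ℕ => Pool.Agent.Lib.MP_324817_lc.ap (f p.1) (Nat.pair (g p.1) p.2))
  fun_prop

end Pool.Agent.Lib.MP_324817_lc
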