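import Mathlib

/-!
Hyperarithmetic relations and reductions on Baire space.
-/

set_option autoImplicit false

namespace Pool.Agent.Lib.MP_324817_lc

/-- Baire space. -/
abbrev Baire : Type := ℕ → ℕ

/-- The first `n` values of `x`. -/
def seg (x : Baire) (n : ℕ) : List ℕ := List.ofFn fun i : Fin n => x i.val

/-- Lightface analytic: the projection of the branches of a computable tree. -/
def Sigma11 (S : Baire → Baire → Prop) : Prop :=
  ∃ T : List ℕ × List ℕ × List ℕ → Bool, Computable T ∧
    ∀ x y, S x y ↔ ∃ w : Baire, ∀ n, T (seg x n, seg y n, seg w n) = true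

/-- Hyperarithmetic: the relation and its complement are lightface analytic. -/
def Hyp (S : Baire → Baire → Prop) : Prop := Sigma11 S ∧ Sigma11 fun x y => ¬ S x y

/-- Reducibility by a total function with hyperarithmetic graph. -/
def HypRed (E F : Baire → Baire → Prop) : Prop :=
  ∃ f : Baire → Baire, Hyp (fun x z => f x = z) ∧ ∀ x y, E x y ↔ F (f x) (f y)

end Pool.Agent.Lib.MP_324817_lc
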