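import Pool.Agent.Lib.MP_324817_lc.Sig

/-!
The ideal of sets of nodes covered by finitely many branches, all of whose infinitely met
branches lie in a given set `D`.
-/

set_option autoImplicit false
set_option maxHeartbeats 400000
set_option linter.unusedVariables false

namespace Pool.Agent.Lib.MP_324817_lc

variable {α β γ : Type} [Rep α] [Rep β] [Rep γ]

def Cov (u : ℕ → Prop) : Prop := ∃ k : ℕ, ∃ W : ℕ → R, ∀ s, u s → ∃ i, i < k ∧ ∃ j, cov (W i) j = s

def Inf (u : ℕ → Prop) (z : R) : Prop := ∀ N, ∃ j, N ≤ j ∧ u (cov z j)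

def H (D : R → Prop) (u : ℕ → Prop) : Prop := Cov u ∧ ∀ z, Inf u z → D z

theorem Cov.union {u v : ℕ → Prop} (hu : Cov u) (hv : Cov v) : Cov (fun s => u s ∨ v s) := by
  obtain ⟨k, W, h⟩ := hu
  obtain ⟨k', W', h'⟩ := hv
  refine ⟨k + k', fun i => if i < k then W i else W' (i - k), ?_⟩
  rintro s (hs | hs)
  · obtain ⟨i, hi, j, hj⟩ := h s hs
    exact ⟨i, by omega, j, by simp only [if_pos hi, hj]⟩
  · obtain ⟨i, hi, j, hj⟩ := h' s hs
    refine ⟨k + i, by omega, j, ?_⟩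
    simp only [if_neg (show ¬ (k + i < k) by omega), Nat.add_sub_cancel_left, hj]

theorem Cov.mono {u v : ℕ → Prop} (hv : Cov v) (h : ∀ s, u s → v s) : Cov u := by
  obtain ⟨k, W, h'⟩ := hv
  exact ⟨k, W, fun s hs => h' s (h s hs)⟩

theorem Cov.branch (z : R) : Cov (fun s => ∃ j, cov z j = s) :=
  ⟨1, fun _ => z, fun s hs => ⟨0, by omega, hs⟩⟩

theorem H.mono {D : R → Prop} {u v : ℕ → Prop} (hv : H D v) (h : ∀ s, u s → v s) : H D u :=
  ⟨hv.1.mono h, fun z hz => hv.2 z (fun N => (hz N).imp (fun j hj => ⟨hj.1, h _ hj.2⟩))⟩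

theorem H.union {D : R → Prop} {u v : ℕ → Prop} (hu : H D u) (hv : H D v) :
    H D (fun s => u s ∨ v s) := by
  refine ⟨hu.1.union hv.1, fun z hz => ?_⟩
  by_cases h : Inf u z
  · exact hu.2 z h
  · apply hv.2 z
    unfold Inf at h
    push Not at h
    obtain ⟨N0, h⟩ := h
    intro N
    obtain ⟨j, hj, hj'⟩ := hz (max N N0)
    exact ⟨j, by omega, hj'.resolve_left (h j (by omega))⟩

theorem H.empty (D : R → Prop) : H D (fun _ => False) :=
  ⟨⟨0, fun _ _ => 0, fun s hs => hs.elim⟩, fun z hz => by obtain ⟨j, -, h⟩ := hz 0; exact h.elim⟩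

theorem H_branch (D : R → Prop) (z : R) : H D (fun s => ∃ j, cov z j = s) ↔ D z := by
  constructor
  · intro h
    exact h.2 z (fun N => ⟨N, le_rfl, N, rfl⟩)
  · intro h
    refine ⟨Cov.branch z, fun y hy => ?_⟩
    have : z = y := by
      funext n
      obtain ⟨j, hj, k, hk⟩ := hy (n + 1)
      have := cov_inj hk
      exact this.2 n (by omega)
    exact this ▸ h

theorem exists_of_inf {u : ℕ → Prop} {k : ℕ} {W : ℕ → R}
    (h : ∀ s, u s → ∃ i, i < k ∧ ∃ j, cov (W i) j = s) {z : R} (hz : Inf u z) :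
    ∃ i, i < k ∧ W i = z := by
  by_contra hn
  push Not at hn
  have : ∀ i, i < k → ∃ d, W i d ≠ z d := fun i hi => Function.ne_iff.1 (hn i hi)
  choose! d hd using this
  obtain ⟨j, hj, hu⟩ := hz ((Finset.range k).sup d + 1)
  obtain ⟨i, hi, j', hj'⟩ := h _ hu
  have h1 := cov_inj hj'
  have h2 : d i ≤ (Finset.range k).sup d := Finset.le_sup (Finset.mem_range.2 hi)
  exact hd i hi (h1.2 _ (by omega))

theorem H_iff (D : R → Prop) (u : ℕ → Prop) : H D u ↔ ∃ k : ℕ, ∃ w : R,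
    (∀ s, u s → ∃ i, i < k ∧ ∃ j, cov (col w i) j = s) ∧
      ∀ i, i < k → (D (col w i) ∨ ∃ N, ∀ j, N ≤ j → ¬ u (cov (col w i) j)) := by
  constructor
  · rintro ⟨⟨k, W, h⟩, h2⟩
    have e : ∀ i, col (fun n => W (p1 n) (p2 n)) i = W i := fun i => by funext j; simp [col]
    refine ⟨k, fun n => W (p1 n) (p2 n), by simpa only [e] using h, fun i hi => ?_⟩
    rw [e]
    by_contra hn
    push Not at hn
    exact hn.1 (h2 _ hn.2)
  · rintro ⟨k, w, h1, h2⟩
    refine ⟨⟨k, col w, h1⟩, fun z hz => ?_⟩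
    obtain ⟨i, hi, rfl⟩ := exists_of_inf h1 hz
    rcases h2 i hi with h | ⟨N, h⟩
    · exact h
    · obtain ⟨j, hj, hu⟩ := hz N
      exact absurd hu (h j hj)

/-- Incompatible nodes. -/
def inc (s s' : ℕ) : Prop := ∃ j, j < len s ∧ j < len s' ∧ ap (ext s) j ≠ ap (ext s') j

theorem inc.symm {s s' : ℕ} (h : inc s s') : inc s' s := by
  obtain ⟨j, h1, h2, h3⟩ := h
  exact ⟨j, h2, h1, h3.symm⟩

theorem not_inc_self (s : ℕ) : ¬ inc s s := fun ⟨_, _, _, h⟩ => h rfl

theorem not_inc_cov (z : R) (j j' : ℕ) : ¬ inc (cov z j) (cov z j') := by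
  rintro ⟨i, h1, h2, h3⟩
  rw [len_cov] at h1 h2
  apply h3
  rw [ap, ap, ext_cov z h1, ext_cov z h2]

def Anti (u : ℕ → Prop) (k : ℕ) : Prop :=
  ∃ w : R, (∀ i, i < k → u (ap w i)) ∧
    ∀ i, i < k → ∀ i', i' < k → i ≠ i' → inc (ap w i) (ap w i')

theorem Cov.not_anti {u : ℕ → Prop} (h : Cov u) : ∃ k, ¬ Anti u k := by
  obtain ⟨k, W, h⟩ := h
  refine ⟨k + 1, ?_⟩
  rintro ⟨w, h1, h2⟩
  choose! I hI J hJ using h
  obtain ⟨a, ha, b, hb, hab, e⟩ := Finset.exists_ne_map_eq_of_card_lt_of_maps_to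
    (s := Finset.range (k + 1)) (t := Finset.range k) (by simp) (f := fun i => I (ap w i))
    (fun i hi => by
      simp only [Finset.coe_range, Set.mem_Iio] at hi ⊢
      exact hI _ (h1 i hi))
  rw [Finset.mem_range] at ha hb
  have k1 := h2 a ha b hb hab
  rw [← hJ _ (h1 a ha), ← hJ _ (h1 b hb)] at k1
  rw [e] at k1
  exact not_inc_cov _ _ _ k1

theorem exists_branch (u : ℕ → Prop) (k : ℕ) (h : ¬ Anti u (k + 2)) :
    ∃ z : R, ¬ Anti (fun s => u s ∧ ¬ ∃ j, cov z j = s) (k + 1) := by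
  classical
  obtain ⟨C, hC⟩ := zorn_subset {C : Set ℕ | (∀ s ∈ C, u s) ∧ ∀ s ∈ C, ∀ t ∈ C, ¬ inc s t} (by
    intro c hc hch
    refine ⟨⋃₀ c, ⟨?_, ?_⟩, fun s hs => Set.subset_sUnion_of_mem hs⟩
    · rintro s ⟨A, hA, hs⟩
      exact (hc hA).1 s hs
    · rintro s ⟨A, hA, hs⟩ t ⟨A', hA', ht⟩
      rcases hch.total hA hA' with k | k
      · exact (hc hA').2 s (k hs) t ht
      · exact (hc hA).2 s hs t (k ht))
  obtain ⟨hC1, hC2⟩ := hC.prop
  have agree : ∀ s ∈ C, ∀ t ∈ C, ∀ j, j < len s → j < len t → ext s j = ext t j := by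
    intro s hs t ht j h1 h2
    by_contra hne
    exact hC2 s hs t ht ⟨j, h1, h2, hne⟩
  let z : R := fun j => if h : ∃ s ∈ C, j < len s then ext h.choose j else 0
  have hz : ∀ s ∈ C, cov z (len s) = s := by
    intro s hs
    conv_rhs => rw [← cov_ext s]
    apply cov_congr
    intro j hj
    have h : ∃ s ∈ C, j < len s := ⟨s, hs, hj⟩
    simp only [z, dif_pos h]
    exact agree _ h.choose_spec.1 s hs j h.choose_spec.2 hj
  refine ⟨z, ?_⟩
  rintro ⟨w, h1, h2⟩
  have key : ∀ a, u a → (¬ ∃ j, cov z j = a) → ∃ c ∈ C, inc a c := by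
    intro a ha hn
    by_contra hne
    push Not at hne
    have : insert a C ⊆ C := by
      apply hC.le_of_ge _ (Set.subset_insert a C)
      refine ⟨?_, ?_⟩
      · rintro s (rfl | hs)
        · exact ha
        · exact hC1 s hs
      · rintro s (rfl | hs) t (rfl | ht)
        · exact not_inc_self _
        · exact hne t ht
        · exact fun k => hne s hs k.symm
        · exact hC2 s hs t ht
    exact hn ⟨_, hz a (this (Set.mem_insert a C))⟩
  choose! c hc1 hc2 using fun i (hi : i < k + 1) => key _ (h1 i hi).1 (h1 i hi).2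
  obtain ⟨i0, hi0, hmax⟩ := Finset.exists_max_image (Finset.range (k + 1)) (fun i => len (c i))
    ⟨0, by simp⟩
  rw [Finset.mem_range] at hi0
  have hinc : ∀ i, i < k + 1 → inc (ap w i) (c i0) := by
    intro i hi
    obtain ⟨j, j1, j2, j3⟩ := hc2 i hi
    have j4 : j < len (c i0) := lt_of_lt_of_le j2 (hmax i (Finset.mem_range.2 hi))
    refine ⟨j, j1, j4, ?_⟩
    unfold ap at j3 ⊢
    rwa [← agree _ (hc1 i hi) _ (hc1 i0 hi0) j j2 j4]
  apply h
  refine ⟨fun i => if i < k + 1 then ap w i else c i0, fun i hi => ?_, fun i hi i' hi' hne => ?_⟩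
  · simp only [ap]
    split_ifs with k1
    · exact (h1 i k1).1
    · exact hC1 _ (hc1 i0 hi0)
  · change inc (if i < k + 1 then ap w i else c i0) (if i' < k + 1 then ap w i' else c i0)
    split_ifs with k1 k2 k2
    · exact h2 i k1 i' k2 hne
    · exact hinc i k1
    · exact (hinc i' k2).symm
    · omega

theorem cov_of_not_anti (k : ℕ) : ∀ u : ℕ → Prop, ¬ Anti u (k + 1) → Cov u := by
  induction k with
  | zero =>
    intro u h
    refine ⟨0, fun _ _ => 0, fun s hs => absurd ⟨cst s, fun _ _ => hs, fun i hi i' hi' => ?_⟩ h⟩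
    omega
  | succ k ih =>
    intro u h
    obtain ⟨z, hz⟩ := exists_branch u k h
    exact ((ih _ hz).union (Cov.branch z)).mono (fun s hs => by tauto)

theorem not_cov_iff (u : ℕ → Prop) : ¬ Cov u ↔ ∀ k, Anti u k := by
  constructor
  · intro h k
    cases k with
    | zero => exact ⟨cst 0, fun i hi => by omega, fun i hi => by omega⟩
    | succ k =>
      by_contra hn
      exact h (cov_of_not_anti k u hn)
  · intro h hc
    obtain ⟨k, hk⟩ := hc.not_anti
    exact hk (h k)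

theorem Dl.inc {f g : α → ℕ} (hf : Cm f) (hg : Cm g) : Dl (fun a => inc (f a) (g a)) :=
  Dl.exN (Dl.and (Dl.lt (by fun_prop) (by fun_prop)) (Dl.and (Dl.lt (by fun_prop) (by fun_prop))
    (Dl.ne (by fun_prop) (by fun_prop))))

theorem Dl.H {D : R → Prop} (hD : Dl D) {u : α → ℕ → Prop}
    (hu : Dl (fun p : α × ℕ => u p.1 p.2)) : Dl (fun a => H D (u a)) := by
  have hu' : ∀ {δ : Type} [Rep δ] {f : δ → α} {g : δ → ℕ}, Cm f → Cm g →
      Dl (fun a => u (f a) (g a)) :=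
    fun {δ} _ {f g} hf hg => hu.comp (f := fun a => (f a, g a)) (by fun_prop)
  constructor
  · simp only [H_iff]
    refine Sig.exN (Sig.exR (And.left (b := Sig _) (Dl.and ?_ ?_)))
    · exact Dl.allN (Dl.imp (hu' (by fun_prop) (by fun_prop))
        (Dl.exN (Dl.and (Dl.lt (by fun_prop) (by fun_prop)) (Dl.exN
          (Dl.eq (by fun_prop) (by fun_prop))))))
    · exact Dl.allN (Dl.imp (Dl.lt (by fun_prop) (by fun_prop)) (Dl.or (hD.comp (by fun_prop))
        (Dl.exN (Dl.allN (Dl.imp (Dl.le (by fun_prop) (by fun_prop))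
          (Dl.not (hu' (by fun_prop) (by fun_prop))))))))
  · have e : ∀ a, ((∀ k, Anti (u a) k) ∨ ∃ z, Inf (u a) z ∧ ¬ D z) ↔
        ¬ Pool.Agent.Lib.MP_324817_lc.H D (u a) := by
      intro a
      rw [← not_cov_iff, Pool.Agent.Lib.MP_324817_lc.H, not_and_or]
      push Not
      rfl
    refine Sig.of_iff (Sig.or (Sig.allN (Sig.exR (Dl.and ?_ ?_).1)) (Sig.exR (Dl.and ?_ ?_).1)) e
    · exact Dl.allN (Dl.imp (Dl.lt (by fun_prop) (by fun_prop)) (hu' (by fun_prop) (by fun_prop)))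
    · exact Dl.allN (Dl.imp (Dl.lt (by fun_prop) (by fun_prop)) (Dl.allN (Dl.imp
        (Dl.lt (by fun_prop) (by fun_prop)) (Dl.imp (Dl.ne (by fun_prop) (by fun_prop))
          (Dl.inc (by fun_prop) (by fun_prop))))))
    · exact Dl.allN (Dl.exN (Dl.and (Dl.le (by fun_prop) (by fun_prop))
        (hu' (by fun_prop) (by fun_prop))))
    · exact Dl.not (hD.comp (by fun_prop))

end Pool.Agent.Lib.MP_324817_lc
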