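import Pool.Agent.Lib.MP_324817_lc.Part1
import Pool.Agent.Lib.MP_324817_lc.Ideal
import Pool.Agent.Lib.MP_324817_lc.Generic

/-!
Every hyperarithmetic equivalence relation with two classes is incomparable with some other one.
-/

set_option autoImplicit false
set_option maxHeartbeats 400000
set_option linter.unusedVariables false

namespace Pool.Agent.Lib.MP_324817_lc

open MeasureTheory

theorem Sig.analytic {P : R → Prop} (h : Sig P) : AnalyticSet {x | P x} := by
  obtain ⟨T, hT, e⟩ := h
  have h1 : Cm (fun (y : R) (n : ℕ) => T ((left y, right y), n)) := Cm.lam (by fun_prop)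
  have h2 : IsClosed {y : R | ∀ n, T ((left y, right y), n) = 0} := by
    rw [Set.ofPred_forall]
    exact isClosed_iInter (fun n => isClosed_eq (h1.good.continuous n) continuous_const)
  have h3 : Continuous left := continuous_pi (fun n => Good.left.continuous n)
  have h4 : {x | P x} = left '' {y : R | ∀ n, T ((left y, right y), n) = 0} := by
    ext x
    constructor
    · intro hx
      obtain ⟨w, hw⟩ := (e x).1 hx
      exact ⟨join x w, by simpa using hw, left_join _ _⟩
    · rintro ⟨y, hy, rfl⟩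
      exact (e _).2 ⟨right y, hy⟩
  rw [h4]
  exact h2.analyticSet.image_of_continuous h3

theorem Dl.measurable {P : R → Prop} (h : Dl P) : MeasurableSet {x | P x} :=
  h.1.analytic.measurableSet_of_compl h.2.analytic

theorem graph_dl {f : R → R} (hf : Sig (fun p : R × R => f p.1 = p.2)) (n a : ℕ) :
    Dl (fun x => f x n = a) := by
  constructor
  · refine (Sig.exR (P := fun x z => f x = z ∧ ap z n = a)
      (hf.and (Dl.eq (by fun_prop) (by fun_prop)).1)).of_iff (fun x => ?_)
    simp [ap]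
  · refine (Sig.exR (P := fun x z => f x = z ∧ ap z n ≠ a)
      (hf.and (Dl.ne (by fun_prop) (by fun_prop)).1)).of_iff (fun x => ?_)
    simp [ap]

/-- The two continuous functions coded by `c`, evaluated at `c`. -/
def gg (i : ℕ) (c : R) : R :=
  fun n => ap c (Nat.pair (i + 1) (Nat.pair n (cov c (ap c (Nat.pair 0 n)))))

theorem Cm.gg (i : ℕ) : Cm (gg i) := by
  apply Cm.lam
  unfold Pool.Agent.Lib.MP_324817_lc.gg
  fun_prop

theorem exists_fixed (φ : ℕ → R → R) (μ : ℕ → ℕ)
    (h : ∀ i z z' n, (∀ j < μ n, z j = z' j) → φ i z n = φ i z' n) :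
    ∃ c, ∀ i, gg i c = φ i c := by
  let c : R := fun m => if p1 m = 0 then μ (p2 m) else φ (p1 m - 1) (ext (p2 (p2 m))) (p1 (p2 m))
  refine ⟨c, fun i => ?_⟩
  funext n
  have e1 : ap c (Nat.pair 0 n) = μ n := by simp [ap, c]
  have e2 : ∀ s, ap c (Nat.pair (i + 1) (Nat.pair n s)) = φ i (ext s) n := by
    intro s; simp [ap, c]
  rw [gg, e1, e2]
  exact h i _ _ n (fun j hj => ext_cov c hj)

def DD (E : R → R → Prop) (c : R) : Prop := ¬ E (gg 0 c) (gg 1 c)

def FF (E : R → R → Prop) (i : ℕ) (p q : R) : Prop :=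
  (¬ B i (left p) ∧ ¬ B i (left q)) ∨
    (B i (left p) ∧ B i (left q) ∧ H (DD E) (fun n => ap (right p) n ≠ ap (right q) n))

theorem FF_equiv (E : R → R → Prop) (i : ℕ) : Equivalence (FF E i) := by
  refine ⟨fun p => ?_, ?_, ?_⟩
  · by_cases h : B i (left p)
    · exact Or.inr ⟨h, h, (H.empty _).mono (fun s hs => hs rfl)⟩
    · exact Or.inl ⟨h, h⟩
  · rintro p q (⟨h1, h2⟩ | ⟨h1, h2, h3⟩)
    · exact Or.inl ⟨h2, h1⟩
    · exact Or.inr ⟨h2, h1, h3.mono (fun s hs => Ne.symm hs)⟩
  · rintro p q r (⟨h1, h2⟩ | ⟨h1, h2, h3⟩) (⟨k1, k2⟩ | ⟨k1, k2, k3⟩)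
    · exact Or.inl ⟨h1, k2⟩
    · exact absurd k1 h2
    · exact absurd h2 k1
    · refine Or.inr ⟨h1, k2, (h3.union k3).mono (fun s hs => ?_)⟩
      by_contra hn
      push Not at hn
      exact hs (hn.1.trans hn.2)

theorem FF_dl {E : R → R → Prop} (hE : Dl (fun p : R × R => E p.1 p.2)) (i : ℕ) :
    Dl (fun p : R × R => FF E i p.1 p.2) := by
  have hD : Dl (DD E) :=
    (hE.comp (f := fun c => (gg 0 c, gg 1 c)) ((Cm.gg 0).prodMk (Cm.gg 1))).not
  refine Dl.or (Dl.and (Dl.B (by fun_prop) (by fun_prop)).not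
    (Dl.B (by fun_prop) (by fun_prop)).not) (Dl.and (Dl.B (by fun_prop) (by fun_prop))
      (Dl.and (Dl.B (by fun_prop) (by fun_prop)) ?_))
  exact Dl.H hD (u := fun (p : R × R) n => ap (right p.1) n ≠ ap (right p.2) n)
    (Dl.ne (by fun_prop) (by fun_prop))

def emb (x : X) : R := fun n => if x n = true then 1 else 0

theorem part2 {E : R → R → Prop} {i : ℕ} {b : R} (hb : B i b) {f : R → R}
    (hf : Sig (fun p : R × R => f p.1 = p.2)) :
    ¬ ∀ x y, FF E i x y ↔ E (f x) (f y) := by
  classical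
  intro hred
  have hcont : Continuous (fun x : X => join b (emb x)) := by
    refine continuous_pi (fun n => ?_)
    unfold join
    split_ifs
    · exact continuous_const
    · exact (continuous_of_discreteTopology
        (f := fun c : Bool => if c = true then (1 : ℕ) else 0)).comp (continuous_apply (n / 2))
  obtain ⟨xs, ys, μ, h1, h2⟩ := generic_continuity (fun x => f (join b (emb x)))
    (fun n a => hcont.measurable (graph_dl hf n a).measurable)
  let v : R → X := fun z s => decide (∃ j, cov z j = s)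
  have hv : ∀ z z' m, (∀ j < m, z j = z' j) → ∀ s < m, v z s = v z' s := by
    intro z z' m h s hs
    have key : ∀ z z' : R, (∀ j < m, z j = z' j) → (∃ j, cov z j = s) → ∃ j, cov z' j = s := by
      rintro z z' h ⟨j, hj⟩
      have := le_cov z j
      exact ⟨j, by rw [← hj]; exact cov_congr (fun k hk => (h k (by omega)).symm)⟩
    simp only [v, decide_eq_decide]
    exact ⟨key z z' h, key z' z (fun j hj => (h j hj).symm)⟩
  obtain ⟨c, hc⟩ := exists_fixed
    (fun k z => if k = 0 then f (join b (emb (xs (v z)))) else f (join b (emb (ys (v z))))) μ (by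
      intro k z z' n h
      have := h2 _ _ n (hv z z' _ h)
      split_ifs
      · exact this.1
      · exact this.2)
  have e0 := hc 0
  have e1 := hc 1
  simp only [if_true, one_ne_zero, if_false] at e0 e1
  have k1 := hred (join b (emb (xs (v c)))) (join b (emb (ys (v c))))
  rw [← e0, ← e1] at k1
  have k2 : (fun n => ap (emb (xs (v c))) n ≠ ap (emb (ys (v c))) n) =
      fun s => ∃ j, cov c j = s := by
    funext s
    have := h1 (v c) s
    simp only [v, decide_eq_true_eq] at this
    rw [← this]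
    unfold ap emb
    cases xs (fun s => decide (∃ j, cov c j = s)) s <;>
      cases ys (fun s => decide (∃ j, cov c j = s)) s <;> simp
  simp only [FF, left_join, right_join, hb, not_true, false_and, true_and, false_or, k2,
    H_branch, DD] at k1
  tauto

theorem main {E : R → R → Prop} (hE : Equivalence E) (h1 : FS E) (h2 : FS (fun x y => ¬ E x y))
    (hxy : ∃ x y, ¬ E x y) :
    ∃ F : R → R → Prop, Equivalence F ∧ FS F ∧ FS (fun x y => ¬ F x y) ∧
      (¬ ∃ f : R → R, FS (fun x z => f x = z) ∧ ∀ x y, E x y ↔ F (f x) (f y)) ∧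
      (¬ ∃ f : R → R, FS (fun x z => f x = z) ∧ ∀ x y, F x y ↔ E (f x) (f y)) := by
  obtain ⟨i, ⟨b, hb⟩, hi⟩ := part1 h2.sig hxy
  have hF := FF_dl (E := E) ⟨h1.sig, h2.sig⟩ i
  refine ⟨FF E i, FF_equiv E i, Sig.fs hF.1, Sig.fs (S := fun x y => ¬ FF E i x y) hF.2, ?_, ?_⟩
  · rintro ⟨f, hf, hred⟩
    obtain ⟨x, y, k1, k2, k3⟩ := hi f hf.sig
    exact k1 ((hred x y).2 (Or.inl ⟨k2, k3⟩))
  · rintro ⟨f, hf, hred⟩
    exact part2 hb hf.sig hred

end Pool.Agent.Lib.MP_324817_lc
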