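import Pool.Agent.Lib.MP_324817_lc.Main

/-!
Non-meagre sets in Cantor space: localisation, and two continuous sections of a continuous map
with non-meagre range whose values differ on a prescribed set.
-/

set_option autoImplicit false
set_option maxHeartbeats 400000
set_option linter.unusedVariables false

namespace Pool.Agent.Lib.MP_324817_lc

open Filter Topology

/-- `A` is non-meagre in every cylinder below the first `L` values of `x`. -/
def EN (A : Set X) (x : X) (L : ℕ) : Prop :=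
  ∀ y L', L ≤ L' → (∀ i < L, y i = x i) → ¬IsMeagre (A ∩ Cyl y L')

theorem EN.mono {A : Set X} {x y : X} {L L' : ℕ} (h : EN A x L) (hL : L ≤ L')
    (e : ∀ i < L, y i = x i) : EN A y L' :=
  fun z M h1 h2 => h z M (hL.trans h1) fun i hi => (h2 i (by omega)).trans (e i hi)

theorem EN.nonempty {A : Set X} {x : X} {L : ℕ} (h : EN A x L) : (A ∩ Cyl x L).Nonempty := by
  rw [Set.nonempty_iff_ne_empty]
  intro e
  exact h x L le_rfl (fun _ _ => rfl) (e ▸ IsMeagre.empty)

theorem isClosed_cyl (x : X) (L : ℕ) : IsClosed (Cyl x L) := by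
  have : Cyl x L = ⋂ i, ⋂ (_ : i < L), {y : X | y i = x i} := by
    ext y
    simp [Cyl]
  rw [this]
  exact isClosed_iInter fun i => isClosed_iInter fun _ =>
    isClosed_eq (continuous_apply i) continuous_const

theorem exists_EN {A : Set X} {x : X} {L : ℕ} (h : ¬IsMeagre (A ∩ Cyl x L)) :
    ∃ y L', L ≤ L' ∧ (∀ i < L, y i = x i) ∧ EN A y L' := by
  by_contra hn
  have h1 : ∀ (y : X) L', L ≤ L' → (∀ i < L, y i = x i) →
      ∃ (z : X) (M : ℕ), L' ≤ M ∧ (∀ i < L', z i = y i) ∧ IsMeagre (A ∩ Cyl z M) := by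
    intro y L' g1 g2
    by_contra g
    exact hn ⟨y, L', g1, g2, fun z M g3 g4 g5 => g ⟨z, M, g3, g4, g5⟩⟩
  obtain ⟨T, hT, hT1, hT2⟩ := TopologicalSpace.isOpen_sUnion_countable
    {O : Set X | IsOpen O ∧ IsMeagre (A ∩ O)} fun s hs => hs.1
  have h2 : IsMeagre (A ∩ ⋃₀ T) := by
    have := hT.to_subtype
    refine (isMeagre_iUnion (f := fun t : T => A ∩ t.1) fun t => (hT1 t.2).2).mono ?_
    rintro y ⟨hy, t, ht, hyt⟩
    exact Set.mem_iUnion.2 ⟨⟨t, ht⟩, hy, hyt⟩
  have h3 : ⋃₀ T ∪ (Cyl x L)ᶜ ∈ residual X := by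
    refine residual_of_dense_open
      ((isOpen_sUnion fun t ht => (hT1 ht).1).union (isClosed_cyl x L).isOpen_compl)
      (dense_iff_inter_open.2 fun O hO ⟨p, hp⟩ => ?_)
    by_cases g : p ∈ Cyl x L
    · obtain ⟨L1, hL1⟩ := exists_cyl hO hp
      obtain ⟨z, M, g1, g2, g3⟩ := h1 p (max L L1) (le_max_left _ _) g
      refine ⟨z, hL1 fun i hi => g2 i (by omega), Or.inl ?_⟩
      rw [hT2]
      exact ⟨Cyl z M, ⟨isOpen_cyl z M, g3⟩, fun _ _ => rfl⟩
    · exact ⟨p, hp, Or.inr g⟩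
  refine h (mem_of_superset (inter_mem h2 h3) ?_)
  rintro y ⟨g1, g2⟩ ⟨g3, g4⟩
  exact g2.elim (fun g => g1 ⟨g3, g⟩) fun g => g g4

theorem EN.split {A : Set X} {B : ℕ → Set X} (hA : A ⊆ ⋃ b, B b) {x : X} {L : ℕ} (h : EN A x L) :
    ∃ b y L', L < L' ∧ (∀ i < L, y i = x i) ∧ EN (B b) y L' := by
  obtain ⟨b, hb⟩ : ∃ b, ¬IsMeagre (B b ∩ Cyl x (L + 1)) := by
    by_contra hn
    refine h x (L + 1) (by omega) (fun _ _ => rfl) ((isMeagre_iUnion
      (f := fun b => B b ∩ Cyl x (L + 1)) fun b => by_contra fun g => hn ⟨b, g⟩).mono ?_)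
    rintro y ⟨h1, h2⟩
    obtain ⟨b, hb⟩ := Set.mem_iUnion.1 (hA h1)
    exact Set.mem_iUnion.2 ⟨b, hb, h2⟩
  obtain ⟨y, L', h1, h2, h3⟩ := exists_EN hb
  exact ⟨b, y, L', h1, fun i hi => h2 i (by omega), h3⟩

theorem exists_EN_zero {A : Set X} (h : ¬IsMeagre A) : ∃ y L, EN A y L := by
  have e : A ⊆ A ∩ Cyl (fun _ => true) 0 := fun y hy => ⟨hy, fun _ hi => absurd hi (by omega)⟩
  obtain ⟨y, L, -, -, h1⟩ := exists_EN fun g => h (g.mono e)
  exact ⟨y, L, h1⟩

/-- Two generic points with a prescribed difference. -/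
theorem fuse (G : ℕ → X → ℕ → Prop)
    (hmono : ∀ k x y L L', L ≤ L' → (∀ i < L, y i = x i) → G k x L → G k y L')
    (hd : ∀ (k : ℕ) (p : X) (l : ℕ), ∃ (q : X) (L : ℕ), (∀ i < l, q i = p i) ∧ G k q L) :
    ∃ (mk : ℕ → X → X) (μ : ℕ → ℕ), (∀ u i, mk 0 u i ≠ mk 1 u i ↔ u i = true) ∧
      (∀ r u u' i, u i = u' i → mk r u i = mk r u' i) ∧
      ∀ r < 2, ∀ u k, G (2 * k + r) (mk r u) (μ k) := by
  classical
  choose nl hnl ss hss using fun k l => block (G k) (hmono k) (hd k) l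
  let l : ℕ → ℕ := fun k => Nat.rec 0 (fun k L => nl k L) k
  have hlt : StrictMono l := strictMono_nat_of_lt_succ (fun k => hnl k (l k))
  have hex : ∀ i, ∃ k, i < l (k + 1) := fun i => ⟨i, hlt.id_le (i + 1)⟩
  let idx : ℕ → ℕ := fun i => Nat.find (hex i)
  have hidx : ∀ k i, l k ≤ i → i < l (k + 1) → idx i = k := by
    intro k i h1 h2
    refine (Nat.find_eq_iff (hex i)).2 ⟨h2, fun m hm => ?_⟩
    have := hlt.monotone (show m + 1 ≤ k by omega)
    omega
  let s : X := fun i => ss (idx i) (l (idx i)) i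
  let mk : ℕ → X → X := fun r u i => if idx i % 2 = r then s i else xor (s i) (u i)
  have hG : ∀ r u k, k % 2 = r → G k (mk r u) (l (k + 1)) := by
    intro r u k hk
    apply hss k (l k)
    intro i h1 h2
    have := hidx k i h1 h2
    simp only [mk, s, this, if_pos hk]
  refine ⟨mk, fun k => l (2 * k + 2), fun u i => ?_, fun r u u' i h => by simp only [mk, h],
    fun r hr u k => hmono _ _ _ _ _ (hlt.monotone (show 2 * k + r + 1 ≤ 2 * k + 2 by omega))
      (fun _ _ => rfl) (hG r u (2 * k + r) (by omega))⟩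
  simp only [mk]
  rcases Nat.mod_two_eq_zero_or_one (idx i) with h | h <;> cases s i <;> cases u i <;> simp [h]

section sec

variable (A : R → ℕ → Set X) (L0 : ℕ)

/-- Lengths at which the witness can be extended. -/
def nxt (x : X) (k : ℕ) (p : ℕ × R) : Set ℕ :=
  {L' | p.1 < L' ∧ ∃ b, EN (A (Function.update p.2 k b) (k + 1)) x L'}

/-- The least search for a witness along `x`. -/
noncomputable def sq (x : X) : ℕ → ℕ × R
  | 0 => (L0, fun _ => 0)
  | k + 1 => (sInf (nxt A x k (sq x k)), Function.update (sq x k).2 k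
      (sInf {b | EN (A (Function.update (sq x k).2 k b) (k + 1)) x (sInf (nxt A x k (sq x k)))}))

/-- The search succeeds for `k` steps. -/
def Rch (x : X) (k : ℕ) : Prop := ∀ j < k, (nxt A x j (sq A L0 x j)).Nonempty

variable {A L0}

theorem Rch.of_le {x : X} {k k' : ℕ} (h : Rch A L0 x k) (hk : k' ≤ k) : Rch A L0 x k' :=
  fun j hj => h j (by omega)

theorem Rch.loc {x y : X} {k : ℕ} (h : Rch A L0 x k) (e : ∀ i < (sq A L0 x k).1, y i = x i) :
    Rch A L0 y k ∧ sq A L0 y k = sq A L0 x k := by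
  induction k with
  | zero => exact ⟨fun j hj => absurd hj (Nat.not_lt_zero _), rfl⟩
  | succ k ih =>
    have m := Nat.sInf_mem (h k (by omega))
    change ∀ i < sInf (nxt A x k (sq A L0 x k)), y i = x i at e
    obtain ⟨h1, h2⟩ := ih (h.of_le (by omega)) fun i hi => e i (hi.trans m.1)
    have en : ∀ (B : Set X) M, M ≤ sInf (nxt A x k (sq A L0 x k)) → (EN B y M ↔ EN B x M) :=
      fun B M hM => ⟨fun g => g.mono le_rfl fun i hi => (e i (by omega)).symm,
        fun g => g.mono le_rfl fun i hi => e i (by omega)⟩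
    have m' : sInf (nxt A x k (sq A L0 x k)) ∈ nxt A y k (sq A L0 x k) :=
      ⟨m.1, m.2.imp fun b hb => (en _ _ le_rfl).2 hb⟩
    have m2 := Nat.sInf_mem ⟨_, m'⟩
    have h3 : sInf (nxt A y k (sq A L0 x k)) = sInf (nxt A x k (sq A L0 x k)) :=
      le_antisymm (Nat.sInf_le m') (Nat.sInf_le
        ⟨m2.1, m2.2.imp fun b hb => (en _ _ (Nat.sInf_le m')).1 hb⟩)
    refine ⟨fun j hj => ?_, ?_⟩
    · rcases Nat.lt_succ_iff_lt_or_eq.1 hj with g | rfl
      · exact h1 j g
      · rw [h2]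
        exact ⟨_, m'⟩
    · simp only [sq, h2, h3, en _ _ le_rfl]

theorem Rch.inv {x : X} {k : ℕ} (h0 : EN (A (fun _ => 0) 0) x L0) (h : Rch A L0 x k) :
    EN (A (sq A L0 x k).2 k) x (sq A L0 x k).1 ∧ k ≤ (sq A L0 x k).1 := by
  induction k with
  | zero => exact ⟨h0, Nat.zero_le _⟩
  | succ k ih =>
    have m := Nat.sInf_mem (h k (by omega))
    exact ⟨Nat.sInf_mem m.2, (ih (h.of_le (by omega))).2.trans_lt m.1⟩

theorem sq_coh (x : X) {j k : ℕ} (h : j < k) : (sq A L0 x k).2 j = (sq A L0 x (j + 1)).2 j := by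
  induction k with
  | zero => exact absurd h (Nat.not_lt_zero _)
  | succ k ih =>
    rcases Nat.lt_succ_iff_lt_or_eq.1 h with g | rfl
    · rw [← ih g]
      exact Function.update_of_ne g.ne _ _
    · rfl

theorem exists_rch (hA : ∀ w k, A w k ⊆ ⋃ b, A (Function.update w k b) (k + 1)) {p : X}
    (h0 : EN (A (fun _ => 0) 0) p L0) {l : ℕ} (hl : L0 ≤ l) (k : ℕ) :
    ∃ q, (∀ i < l, q i = p i) ∧ Rch A L0 q k := by
  induction k with
  | zero => exact ⟨p, fun _ _ => rfl, fun j hj => absurd hj (Nat.not_lt_zero _)⟩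
  | succ k ih =>
    obtain ⟨q, h1, h2⟩ := ih
    have h3 := (h2.inv (h0.mono le_rfl fun i hi => h1 i (by omega))).1
    obtain ⟨b, y, L', h4, h5, h6⟩ := (h3.mono (le_max_right l _) fun _ _ => rfl).split (hA _ _)
    obtain ⟨h7, h8⟩ := h2.loc (y := y) fun i hi => h5 i (by omega)
    refine ⟨y, fun i hi => (h5 i (by omega)).trans (h1 i hi), fun j hj => ?_⟩
    rcases Nat.lt_succ_iff_lt_or_eq.1 hj with g | rfl
    · exact h7 j g
    · rw [h8]
      exact ⟨L', by omega, b, h6⟩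

end sec

theorem unif {h : X → ℕ} (hc : Continuous h) :
    ∃ m, ∀ u u', (∀ i < m, u i = u' i) → h u = h u' := by
  obtain ⟨m, hm⟩ := isCompact_univ.elim_directed_cover
    (fun m : ℕ => {u' : X | ∀ u : X, (∀ i < m, u i = u' i) → h u = h u'}) (fun m => by
      refine isOpen_iff_forall_mem_open.2 fun x hx => ⟨Cyl x m, fun y hy u hu => ?_,
        isOpen_cyl x m, fun _ _ => rfl⟩
      exact (hx u fun i hi => (hu i hi).trans (hy i hi)).trans (hx y hy).symm)
    (fun x _ => by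
      obtain ⟨L, hL⟩ := exists_cyl (O := h ⁻¹' {h x}) (hc.isOpen_preimage _ (isOpen_discrete _))
        (x := x) rfl
      exact Set.mem_iUnion.2 ⟨L, fun u hu => hL hu⟩)
    (Monotone.directed_le (f := fun m : ℕ => {u' : X | ∀ u : X, (∀ i < m, u i = u' i) → h u = h u'})
      fun m m' hm x hx u hu => hx u fun i hi => hu i (hi.trans_le hm))
  exact ⟨m, fun u u' e => hm (Set.mem_univ u') u e⟩

theorem fusion {φ : R → R} (hφ : Continuous φ) (h : ¬IsMeagre {y : X | ∃ w, φ w = emb y}) :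
    ∃ (W : ℕ → X → R) (N : ℕ), (∀ r < 2, Continuous (W r)) ∧
      ∀ u i, φ (W 0 u) i ≠ φ (W 1 u) i ↔ N ≤ i ∧ u i = true := by
  classical
  obtain ⟨A, hA⟩ : ∃ A : R → ℕ → Set X,
      ∀ w k y, y ∈ A w k ↔ ∃ w', (∀ j < k, w' j = w j) ∧ φ w' = emb y :=
    ⟨fun w k => {y | ∃ w', (∀ j < k, w' j = w j) ∧ φ w' = emb y}, fun _ _ _ => Iff.rfl⟩
  have hA1 : ∀ w k, A w k ⊆ ⋃ b, A (Function.update w k b) (k + 1) := by
    intro w k y hy
    obtain ⟨w', h1, h2⟩ := (hA _ _ _).1 hy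
    refine Set.mem_iUnion.2 ⟨w' k, (hA _ _ _).2 ⟨w', fun j hj => ?_, h2⟩⟩
    rcases Nat.lt_succ_iff_lt_or_eq.1 hj with g | rfl
    · rw [Function.update_of_ne g.ne, h1 j g]
    · rw [Function.update_self]
  obtain ⟨s, N, hs⟩ := exists_EN_zero (A := A (fun _ => 0) 0) fun g => h (g.mono
    fun y ⟨w, hw⟩ => (hA _ _ _).2 ⟨w, fun _ hj => absurd hj (Nat.not_lt_zero _), hw⟩)
  obtain ⟨ow, how1, how2⟩ : ∃ ow : X → X, (∀ x, ∀ i < N, ow x i = s i) ∧
      ∀ x i, N ≤ i → ow x i = x i :=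
    ⟨fun x i => if i < N then s i else x i, fun x i hi => if_pos hi,
      fun x i hi => if_neg (by omega)⟩
  have how3 : ∀ x y i, y i = x i → ow y i = ow x i := fun x y i e => by
    rcases lt_or_ge i N with g | g
    · rw [how1 _ _ g, how1 _ _ g]
    · rw [how2 _ _ g, how2 _ _ g, e]
  have hs' : ∀ x, EN (A (fun _ => 0) 0) (ow x) N := fun x => hs.mono le_rfl (how1 x)
  obtain ⟨mk, μ, h1, h2, h3⟩ := fuse (fun k x L => Rch A N (ow x) k ∧ (sq A N (ow x) k).1 ≤ L)
    (fun k x y L L' g1 g2 g3 => by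
      obtain ⟨g4, g5⟩ := g3.1.loc (y := ow y) fun i hi => how3 _ _ i (g2 i (by omega))
      exact ⟨g4, by rw [g5]; omega⟩)
    (fun k p l => by
      obtain ⟨q, g1, g2⟩ := exists_rch hA1 (hs' p) (le_max_right l N) k
      have e : ow (fun i => if i < N then p i else q i) = q := by
        funext i
        rcases lt_or_ge i N with g | g
        · rw [how1 _ _ g, g1 i (by omega), how1 _ _ g]
        · rw [how2 _ _ g, if_neg (by omega)]
      refine ⟨fun i => if i < N then p i else q i, _, fun i hi => ?_, by rwa [e], le_rfl⟩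
      rcases lt_or_ge i N with g | g
      · exact if_pos g
      · exact (if_neg (by omega)).trans ((g1 i (by omega)).trans (how2 _ _ g)))
  have lim : ∀ x, (∀ k, Rch A N (ow x) k) →
      φ (fun j => (sq A N (ow x) (j + 1)).2 j) = emb (ow x) := by
    intro x hx
    have g1 : ∀ k, ∃ w' y, (∀ j < k, w' j = (sq A N (ow x) (j + 1)).2 j) ∧ φ w' = emb y ∧
        ∀ j < k, y j = ow x j := fun k => by
      obtain ⟨g2, g3⟩ := (hx k).inv (hs' x)
      obtain ⟨y, g4, g5⟩ := g2.nonempty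
      obtain ⟨w', g6, g7⟩ := (hA _ _ _).1 g4
      exact ⟨w', y, fun j hj => (g6 j hj).trans (sq_coh _ hj), g7, fun j hj => g5 j (by omega)⟩
    choose w' y g2 g3 g4 using g1
    have t1 : Tendsto w' atTop (𝓝 fun j => (sq A N (ow x) (j + 1)).2 j) :=
      tendsto_pi_nhds.2 fun j => tendsto_const_nhds.congr'
        (eventually_atTop.2 ⟨j + 1, fun k hk => (g2 k j hk).symm⟩)
    have t2 : Tendsto (fun k => φ (w' k)) atTop (𝓝 (emb (ow x))) :=
      tendsto_pi_nhds.2 fun j => tendsto_const_nhds.congr'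
        (eventually_atTop.2 ⟨j + 1, fun k hk => by simp only [g3, emb, g4 k j hk]⟩)
    exact tendsto_nhds_unique ((hφ.tendsto _).comp t1) t2
  refine ⟨fun r u j => (sq A N (ow (mk r u)) (j + 1)).2 j, N, fun r hr => ?_, fun u i => ?_⟩
  · refine continuous_pi fun j => IsLocallyConstant.continuous
      ((IsLocallyConstant.iff_exists_open _).2 fun u =>
        ⟨Cyl u (μ (j + 1)), isOpen_cyl _ _, fun _ _ => rfl, fun u' hu => ?_⟩)
    obtain ⟨g1, g2⟩ := h3 r hr u (j + 1)
    have g3 := (g1.loc (y := ow (mk r u')) fun i hi =>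
      how3 _ _ i (h2 r _ _ i (hu i (by omega)))).2
    exact (sq_coh (k := 2 * (j + 1) + r) _ (by omega)).symm.trans
      ((congrArg (fun p : ℕ × R => p.2 j) g3).trans (sq_coh _ (by omega)))
  · rw [lim _ fun k => (h3 0 (by omega) u k).1.of_le (by omega),
      lim _ fun k => (h3 1 (by omega) u k).1.of_le (by omega)]
    rcases lt_or_ge i N with g | g
    · simp only [emb, how1 _ _ g, ne_eq, not_true, false_iff]
      omega
    · simp only [emb, how2 _ _ g, g, true_and, ← h1 u i]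
      cases mk 0 u i <;> cases mk 1 u i <;> simp

end Pool.Agent.Lib.MP_324817_lc
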