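import Pool.Agent.Lib.MP_324817_lc.MpSig

/-!
A hyperarithmetic equivalence relation none of whose nontrivial hyperarithmetic pullbacks is
Borel reducible to a given relation.
-/

set_option autoImplicit false
set_option maxHeartbeats 400000
set_option linter.unusedVariables false

namespace Pool.Agent.Lib.MP_324817_lc

open MeasureTheory

theorem H_tail (D : R → Prop) (z : R) (N : ℕ) :
    H D (fun s => N ≤ s ∧ ∃ j, cov z j = s) ↔ D z :=
  ⟨fun h => h.2 z fun M => ⟨max M N, le_max_left _ _,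
    (le_max_right _ _).trans (le_cov _ _), _, rfl⟩,
    fun h => ((H_branch D z).2 h).mono fun _ hs => hs.2⟩

theorem diag {E : R → R → Prop} {φ ψ : R → R} (hφ : Continuous φ) (hψ : Continuous ψ)
    (h : ¬IsMeagre {y : X | ∃ w, φ w = emb y}) :
    ¬∀ w w', H (DD E) (fun n => φ w n ≠ φ w' n) ↔ E (ψ w) (ψ w') := by
  classical
  intro hred
  obtain ⟨W, N, h1, h2⟩ := fusion hφ h
  choose μ hμ using fun (r : Fin 2) n =>
    unif (h := fun u => ψ (W r u) n) ((continuous_apply n).comp (hψ.comp (h1 r r.2)))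
  let v : R → X := fun z s => decide (∃ j, cov z j = s)
  have hv : ∀ z z' m, (∀ j < m, z j = z' j) → ∀ s < m, v z s = v z' s := by
    intro z z' m h s hs
    have key : ∀ z z' : R, (∀ j < m, z j = z' j) → (∃ j, cov z j = s) → ∃ j, cov z' j = s := by
      rintro z z' h ⟨j, hj⟩
      have := le_cov z j
      exact ⟨j, by rw [← hj]; exact cov_congr (fun k hk => (h k (by omega)).symm)⟩
    simp only [v, decide_eq_decide]
    exact ⟨key z z' h, key z' z (fun j hj => (h j hj).symm)⟩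
  obtain ⟨c, hc⟩ := exists_fixed
    (fun k z => if k = 0 then ψ (W 0 (v z)) else ψ (W 1 (v z))) (fun n => μ 0 n + μ 1 n) (by
      intro k z z' n h
      have := hv z z' _ h
      split_ifs
      · exact hμ 0 n _ _ fun i hi => this i (by omega)
      · exact hμ 1 n _ _ fun i hi => this i (by omega))
  have e0 := hc 0
  have e1 := hc 1
  simp only [if_true, one_ne_zero, if_false] at e0 e1
  have k1 := hred (W 0 (v c)) (W 1 (v c))
  simp only [h2, v, decide_eq_true_eq, H_tail] at k1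
  rw [DD, e0, e1] at k1
  exact iff_not_self k1.symm

/-- The effectively closed set that carries the complicated part of the relation. -/
def BB (i : ℕ) (p : R) : Prop := (∀ m, ok i (cov (left p) m)) ∧ ap (right p) 0 = 0

theorem Dl.BB {α : Type} [Rep α] (i : ℕ) {g : α → R} (hg : Cm g) : Dl (fun a => BB i (g a)) :=
  Dl.and (Dl.allN (Dl.ok (by fun_prop) (by fun_prop))) (Dl.zero (by fun_prop))

def FG (E : R → R → Prop) (i : ℕ) (p q : R) : Prop :=
  (¬BB i p ∧ ¬BB i q) ∨
    (BB i p ∧ BB i q ∧ H (DD E) (fun n => ap (left (left p)) n ≠ ap (left (left q)) n))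

theorem FG_equiv (E : R → R → Prop) (i : ℕ) : Equivalence (FG E i) := by
  refine ⟨fun p => ?_, ?_, ?_⟩
  · by_cases h : BB i p
    · exact Or.inr ⟨h, h, (H.empty _).mono (fun s hs => hs rfl)⟩
    · exact Or.inl ⟨h, h⟩
  · rintro p q (⟨h1, h2⟩ | ⟨h1, h2, h3⟩)
    · exact Or.inl ⟨h2, h1⟩
    · exact Or.inr ⟨h2, h1, h3.mono (fun s hs => Ne.symm hs)⟩
  · rintro p q r (⟨h1, h2⟩ | ⟨h1, h2, h3⟩) (⟨k1, k2⟩ | ⟨k1, k2, k3⟩)
    · exact Or.inl ⟨h1, k2⟩
    · exact absurd k1 h2
    · exact absurd h2 k1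
    · refine Or.inr ⟨h1, k2, (h3.union k3).mono (fun s hs => ?_)⟩
      by_contra hn
      push Not at hn
      exact hs (hn.1.trans hn.2)

theorem FG_dl {E : R → R → Prop} (hE : Dl (fun p : R × R => E p.1 p.2)) (i : ℕ) :
    Dl (fun p : R × R => FG E i p.1 p.2) := by
  have hD : Dl (DD E) :=
    (hE.comp (f := fun c => (gg 0 c, gg 1 c)) ((Cm.gg 0).prodMk (Cm.gg 1))).not
  refine Dl.or (Dl.and (Dl.BB i (by fun_prop)).not (Dl.BB i (by fun_prop)).not)
    (Dl.and (Dl.BB i (by fun_prop)) (Dl.and (Dl.BB i (by fun_prop)) ?_))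
  exact Dl.H hD (u := fun (p : R × R) n => ap (left (left p.1)) n ≠ ap (left (left p.2)) n)
    (Dl.ne (by fun_prop) (by fun_prop))

theorem join_left_right (x : R) : join (left x) (right x) = x := by
  funext n
  unfold join left right
  split_ifs <;> exact congrArg x (by omega)

theorem graph_measurable {f : R → R} (hf : Sig (fun p : R × R => f p.1 = p.2)) : Measurable f :=
  measurable_pi_lambda _ fun n => measurable_to_countable' fun a => (graph_dl hf n a).measurable

theorem main_pair {E : R → R → Prop} (hE : Dl (fun p : R × R => E p.1 p.2)) :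
    ∃ F : R → R → Prop, Equivalence F ∧ Dl (fun p : R × R => F p.1 p.2) ∧ (∃ x y, ¬F x y) ∧
      ∀ f g : R → R, Sig (fun p : R × R => f p.1 = p.2) → Measurable g →
        (∀ x y, F (f x) (f y) ↔ E (g x) (g y)) → ∀ x y, F (f x) (f y) := by
  obtain ⟨S, hS, ⟨a, ha⟩, hS'⟩ := exists_generic
  obtain ⟨i, hi⟩ := hS.code
  refine ⟨FG E i, FG_equiv E i, FG_dl hE i, ?_, fun f g hf hg hred x y => ?_⟩
  · obtain ⟨w, hw⟩ := (hi a).1 ha
    refine ⟨join (join a w) (cst 0), join a (cst 1), ?_⟩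
    rintro (⟨h, -⟩ | ⟨-, h, -⟩)
    · exact h ⟨by rwa [left_join], by rw [right_join]; rfl⟩
    · have := h.2
      rw [right_join] at this
      exact one_ne_zero this
  by_contra hn
  obtain ⟨x0, hx0⟩ : ∃ x0, BB i (f x0) := by
    by_contra hb
    exact hn (Or.inl ⟨fun h => hb ⟨_, h⟩, fun h => hb ⟨_, h⟩⟩)
  have hA : Sig (fun a : R => ∃ x p, f x = p ∧ BB i p ∧ ∀ n, ap (left (left p)) n = ap a n) :=
    Sig.exR (Sig.exR (Sig.and (hf.comp (f := fun p : (R × R) × R => (p.1.2, p.2)) (by fun_prop))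
      (Sig.and (Dl.BB i (by fun_prop)).1 (Sig.allN (Dl.eq (by fun_prop) (by fun_prop)).1))))
  have hnm := hS' _ hA ⟨left (left (f x0)), (hi _).2 ⟨right (left (f x0)), fun m => by
    change ok i (cov (join (left (left (f x0))) (right (left (f x0)))) m)
    rw [join_left_right]
    exact hx0.1 m⟩, x0, _, rfl, hx0, fun _ => rfl⟩
  have hl : Measurable left := measurable_pi_lambda _ fun n => measurable_pi_apply _
  have hm := graph_measurable hf
  have hΓ : AnalyticSet ((fun x => (left (left (f x)), g x)) '' {x | BB i (f x)}) :=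
    (hm (Dl.BB i Cm.id).measurable).analyticSet_image ((hl.comp (hl.comp hm)).prodMk hg)
  rw [AnalyticSet] at hΓ
  rcases hΓ with h | ⟨φ, h1, h2⟩
  · exact Set.eq_empty_iff_forall_notMem.1 h _ ⟨x0, hx0, rfl⟩
  refine diag (E := E) h1.fst h1.snd (fun k => hnm (k.mono ?_)) fun w w' => ?_
  · rintro y ⟨x, _, rfl, h3, h4⟩
    obtain ⟨w, hw⟩ : (left (left (f x)), g x) ∈ Set.range φ := h2.ge ⟨x, h3, rfl⟩
    exact ⟨w, by rw [hw]; exact funext h4⟩
  · obtain ⟨x, h3, h4⟩ := h2.le (Set.mem_range_self w)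
    obtain ⟨x', h5, h6⟩ := h2.le (Set.mem_range_self w')
    rw [← h4, ← h6, ← hred]
    exact ⟨fun k => Or.inr ⟨h3, h5, k⟩, fun k => k.elim (fun k => absurd h3 k.1) fun k => k.2.2⟩

end Pool.Agent.Lib.MP_324817_lc
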