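import Pool.Agent.Lib.MP_324817_lc.MpCat

/-!
The category quantifier preserves lightface analytic predicates; a nonempty analytic set that
meets only non-meagre analytic sets.
-/

set_option autoImplicit false
set_option maxHeartbeats 400000
set_option linter.unusedVariables false

namespace Pool.Agent.Lib.MP_324817_lc

open Filter Topology

variable {α β γ : Type} [Rep α] [Rep β] [Rep γ]

def nb (a : R) : R := fun j => cz (ap a j) 0 1

def xb (a : R) : X := fun j => decide (a j ≠ 0)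

@[fun_prop]
theorem Cm.nb {f : α → R} (hf : Cm f) : Cm (fun a => nb (f a)) := by
  apply Cm.lam
  unfold Pool.Agent.Lib.MP_324817_lc.nb
  fun_prop

theorem emb_eq {y : X} {a : R} {j : ℕ} (h : y j = xb a j) : emb y j = nb a j := by
  by_cases g : a j = 0 <;> simp [emb, h, xb, nb, cz, ap, g]

theorem xb_eq {y : X} {a : R} {j : ℕ} (h : a j = emb y j) : xb a j = y j := by
  cases g : y j <;> simp [xb, h, emb, g]

/-- The sequence coded by `t` extends the one coded by `s`. -/
def pre (s t : ℕ) : Prop := len s ≤ len t ∧ ∀ j, j < len s → ap (ext t) j = ap (ext s) j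

theorem Dl.pre {f g : α → ℕ} (hf : Cm f) (hg : Cm g) : Dl (fun a => pre (f a) (g a)) :=
  Dl.and (Dl.le (by fun_prop) (by fun_prop))
    (Dl.allN (Dl.imp (Dl.lt (by fun_prop) (by fun_prop)) (Dl.eq (by fun_prop) (by fun_prop))))

/-- A system of pairs of finite sequences along which witnesses can always be extended. -/
def Sys (e : ℕ) (x : R) (Z : ℕ → ℕ → Prop) : Prop :=
  (∃ s, Z s 0) ∧ ∀ s w, Z s w →
    (∀ j, j ≤ len s → j ≤ len w → ok e (cov (join (join x (nb (ext s))) (ext w)) j)) ∧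
      ∀ t, pre s t → ∃ s' b, pre t s' ∧ len t < len s' ∧ Z s' (ch w b)

theorem ch_eq (w b : ℕ) : ch w b = cov (Function.update (ext w) (len w) b) (len w + 1) := by
  rw [cov, Function.update_self,
    cov_congr (z := ext w) fun j hj => Function.update_of_ne hj.ne _ _, cov_ext, ch]

theorem sys_of_nm {e : ℕ} {x : R}
    (h : ¬IsMeagre {y : X | ∃ w, ∀ m, ok e (cov (join (join x (emb y)) w) m)}) :
    ∃ Z, Sys e x Z := by
  obtain ⟨A, hA⟩ : ∃ A : R → ℕ → Set X, ∀ w k y, y ∈ A w k ↔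
      ∃ w', (∀ j < k, w' j = w j) ∧ ∀ m, ok e (cov (join (join x (emb y)) w') m) :=
    ⟨fun w k => {y | ∃ w', (∀ j < k, w' j = w j) ∧ ∀ m, ok e (cov (join (join x (emb y)) w') m)},
      fun _ _ _ => Iff.rfl⟩
  have hA1 : ∀ w k, A w k ⊆ ⋃ b, A (Function.update w k b) (k + 1) := by
    intro w k y hy
    obtain ⟨w', h1, h2⟩ := (hA _ _ _).1 hy
    refine Set.mem_iUnion.2 ⟨w' k, (hA _ _ _).2 ⟨w', fun j hj => ?_, h2⟩⟩
    rcases Nat.lt_succ_iff_lt_or_eq.1 hj with g | rfl
    · rw [Function.update_of_ne g.ne, h1 j g]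
    · rw [Function.update_self]
  have hA2 : ∀ w k, A (ext (cov w k)) (len (cov w k)) = A w k := by
    intro w k
    ext y
    rw [hA, hA, len_cov]
    exact exists_congr fun w' => and_congr_left' (forall₂_congr fun j hj => by rw [ext_cov w hj])
  refine ⟨fun s w => EN (A (ext w) (len w)) (xb (ext s)) (len s), ?_, fun s w hz => ⟨?_, ?_⟩⟩
  · obtain ⟨q, L, hq⟩ := exists_EN_zero (A := A (fun _ => 0) 0) fun g => h (g.mono
      fun y ⟨w, hw⟩ => (hA _ _ _).2 ⟨w, fun _ hj => absurd hj (Nat.not_lt_zero _), hw⟩)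
    rw [← hA2] at hq
    exact ⟨cov (emb q) L, hq.mono (len_cov _ _).ge fun i hi => xb_eq (ext_cov _ hi)⟩
  · intro j h1 h2
    obtain ⟨y, g1, g2⟩ := hz.nonempty
    obtain ⟨w', g3, g4⟩ := (hA _ _ _).1 g1
    rw [← cov_congr (join_congr (join_congr (fun _ _ => rfl)
      fun i hi => emb_eq (g2 i (hi.trans_le h1))) fun i hi => g3 i (hi.trans_le h2))]
    exact g4 j
  · intro t ht
    have g0 : EN (A (ext w) (len w)) (xb (ext t)) (len t) :=
      hz.mono ht.1 fun i hi => congrArg (fun n => decide (n ≠ 0)) (ht.2 i hi)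
    obtain ⟨b, q, L', g1, g2, g3⟩ := g0.split (hA1 _ _)
    refine ⟨cov (fun j => if j < len t then ext t j else emb q j) L', b,
      ⟨by rw [len_cov]; omega, fun j hj => ?_⟩, by rwa [len_cov], ?_⟩
    · exact (ext_cov _ (hj.trans g1)).trans (if_pos hj)
    · simp only []
      rw [ch_eq, hA2]
      refine g3.mono (len_cov _ _).ge fun i hi => ?_
      by_cases g : i < len t
      · rw [g2 i g]
        exact congrArg (fun n => decide (n ≠ 0)) ((ext_cov _ hi).trans (if_pos g))
      · exact xb_eq ((ext_cov _ hi).trans (if_neg g))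

theorem nm_of_sys {e : ℕ} {x : R} {Z : ℕ → ℕ → Prop} (h : Sys e x Z) :
    ¬IsMeagre {y : X | ∃ w, ∀ m, ok e (cov (join (join x (emb y)) w) m)} := by
  intro hC
  obtain ⟨S, hS1, hS2, hS3, hS4⟩ := mem_residual_iff.1 hC
  obtain ⟨V, hV⟩ := (hS3.insert Set.univ).exists_eq_range (Set.insert_nonempty _ _)
  have hV1 : ∀ j, IsOpen (V j) ∧ Dense (V j) := by
    intro j
    have : V j ∈ insert Set.univ S := hV ▸ Set.mem_range_self j
    rcases this with h | h
    · rw [h]; exact ⟨isOpen_univ, dense_univ⟩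
    · exact ⟨hS1 _ h, hS2 _ h⟩
  have step : ∀ k s w, Z s w → ∃ p : ℕ × ℕ, pre s p.1 ∧ len s < len p.1 ∧ Z p.1 (ch w p.2) ∧
      Cyl (xb (ext p.1)) (len p.1) ⊆ V k := by
    intro k s w hz
    obtain ⟨q, g1, g2⟩ := (hV1 k).2.exists_mem_open (isOpen_cyl (xb (ext s)) (len s))
      ⟨_, fun _ _ => rfl⟩
    obtain ⟨L, hL⟩ := exists_cyl (hV1 k).1 g1
    have e1 : ∀ j < max L (len s), ext (cov (fun j => if j < len s then ext s j else emb q j)
        (max L (len s))) j = if j < len s then ext s j else emb q j := fun j hj => ext_cov _ hj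
    obtain ⟨s', b, g3, g4, g5⟩ := (h.2 s w hz).2
      (cov (fun j => if j < len s then ext s j else emb q j) (max L (len s)))
      ⟨by rw [len_cov]; omega, fun j hj => (e1 j (by omega)).trans (if_pos hj)⟩
    rw [pre, len_cov] at g3
    rw [len_cov] at g4
    have g6 : len s < len s' := by omega
    refine ⟨(s', b), ⟨g6.le, fun j hj =>
      (g3.2 j (by omega)).trans ((e1 j (by omega)).trans (if_pos hj))⟩, g6, g5,
      (cyl_mono (show L ≤ len s' by omega) fun i hi => ?_).trans hL⟩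
    have e2 : ext s' i = _ := (g3.2 i (by omega)).trans (e1 i (by omega))
    by_cases g : i < len s
    · rw [g2 i g]
      exact congrArg (fun n => decide (n ≠ 0)) (e2.trans (if_pos g))
    · exact xb_eq (e2.trans (if_neg g))
  choose! F F1 F2 F3 F4 using step
  obtain ⟨s0, h0⟩ := h.1
  obtain ⟨g, g0, g1⟩ : ∃ g : ℕ → ℕ × ℕ, g 0 = (s0, 0) ∧ ∀ k, g (k + 1) =
      ((F k (g k).1 (g k).2).1, ch (g k).2 (F k (g k).1 (g k).2).2) :=
    ⟨fun k => Nat.rec (s0, 0) (fun k p => ((F k p.1 p.2).1, ch p.2 (F k p.1 p.2).2)) k, rfl,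
      fun _ => rfl⟩
  have hz : ∀ k, Z (g k).1 (g k).2 := by
    intro k
    induction k with
    | zero => rwa [g0]
    | succ k ih => rw [g1]; exact F3 k _ _ ih
  have hw : ∀ k, (g k).2 = cov (fun k => (F k (g k).1 (g k).2).2) k := by
    intro k
    induction k with
    | zero => rw [g0]; rfl
    | succ k ih => rw [cov, ← ih, g1]; rfl
  have hlt : StrictMono fun k => len (g k).1 :=
    strictMono_nat_of_lt_succ fun k => by rw [g1]; exact F2 k _ _ (hz k)
  have hp : ∀ k k', k ≤ k' → ∀ j < len (g k).1, ext (g k').1 j = ext (g k).1 j := by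
    intro k k' hk j hj
    induction k', hk using Nat.le_induction with
    | base => rfl
    | succ k' hk ih =>
      rw [← ih, g1]
      exact (F1 k' _ _ (hz k')).2 j (hj.trans_le (hlt.monotone hk))
  have hy : ∀ k, ∀ j < len (g k).1, xb (ext (g (j + 1)).1) j = xb (ext (g k).1) j := by
    intro k j hj
    refine congrArg (fun n => decide (n ≠ 0)) ?_
    rcases le_total k (j + 1) with g | g
    · exact hp _ _ g j hj
    · exact (hp _ _ g j (hlt.id_le (j + 1))).symm
  refine hS4 (a := fun j => xb (ext (g (j + 1)).1) j) (fun t ht => ?_)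
    ⟨fun k => (F k (g k).1 (g k).2).2, fun m => ?_⟩
  · have : t ∈ Set.range V := hV ▸ Set.mem_insert_of_mem _ ht
    obtain ⟨k, rfl⟩ := this
    refine F4 k _ _ (hz k) fun j hj => ?_
    have := hy (k + 1) j
    rw [g1 k] at this
    exact this hj
  · have e1 : m ≤ len (g m).1 := hlt.id_le m
    have := (h.2 _ _ (hz m)).1 m e1 (by rw [hw, len_cov])
    rwa [← cov_congr (join_congr (join_congr (fun _ _ => rfl)
      fun i hi => emb_eq (y := fun j => xb (ext (g (j + 1)).1) j) (hy m i (hi.trans_le e1)))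
      (y := fun k => (F k (g k).1 (g k).2).2) fun i hi => by rw [hw m, ext_cov _ hi])] at this

theorem sig_sys (e : ℕ) : Sig (fun x : R => ∃ Z, Sys e x Z) := by
  classical
  have h : Sig (fun x : R => ∃ z : R, Sys e x fun s w => ap z (Nat.pair s w) = 0) := by
    unfold Sys
    exact Sig.exR (Dl.and (Dl.exN (Dl.zero (by fun_prop))) (Dl.allN (Dl.allN
      (Dl.imp (Dl.zero (by fun_prop)) (Dl.and
        (Dl.allN (Dl.imp (Dl.le (by fun_prop) (by fun_prop)) (Dl.imp
          (Dl.le (by fun_prop) (by fun_prop)) (Dl.ok (by fun_prop) (by fun_prop)))))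
        (Dl.allN (Dl.imp (Dl.pre (by fun_prop) (by fun_prop)) (Dl.exN (Dl.exN
          (Dl.and (Dl.pre (by fun_prop) (by fun_prop)) (Dl.and
            (Dl.lt (by fun_prop) (by fun_prop)) (Dl.zero (by fun_prop))))))))))))).1
  refine h.of_iff fun x => ⟨fun ⟨z, hz⟩ => ⟨_, hz⟩, fun ⟨Z, hZ⟩ =>
    ⟨fun n => if Z (p1 n) (p2 n) then 0 else 1, ?_⟩⟩
  have : (fun s w => ap (fun n => if Z (p1 n) (p2 n) then 0 else 1) (Nat.pair s w) = 0) = Z := by
    funext s w
    simp [ap]
  rwa [this]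

/-- The category quantifier. -/
theorem Sig.nm {P : α → R → Prop} (h : Sig (fun p : α × R => P p.1 p.2)) :
    Sig (fun a => ¬IsMeagre {y : X | P a (emb y)}) := by
  obtain ⟨e, he⟩ := h.code
  refine ((sig_sys e).comp (f := fun a : α => Rep.enc a) ⟨_, Good.orc, fun _ => rfl⟩).of_iff
    fun a => ?_
  have : {y : X | P a (emb y)} =
      {y : X | ∃ w, ∀ m, ok e (cov (join (join (Rep.enc a) (emb y)) w) m)} :=
    Set.ext fun y => he (a, emb y)
  rw [this]
  exact ⟨fun ⟨Z, hZ⟩ => nm_of_sys hZ, sys_of_nm⟩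

/-- The tree of attempts at a witness for `a` in the `e`-th analytic set. -/
def Tr (e : ℕ) (a : R) (s : ℕ) : Prop := ∀ j, j ≤ len s → ok e (cov (join a (ext s)) j)

theorem Dl.Tr {f s : α → ℕ} {g : α → R} (hf : Cm f) (hg : Cm g) (hs : Cm s) :
    Dl (fun a => Tr (f a) (g a) (s a)) :=
  Dl.allN (Dl.imp (Dl.le (by fun_prop) (by fun_prop)) (Dl.ok (by fun_prop) (by fun_prop)))

theorem path_Tr (e : ℕ) (a : R) : Path (Tr e a) ↔ ∃ w, ∀ m, ok e (cov (join a w) m) := by
  refine exists_congr fun w => ⟨fun h m => ?_, fun h m j hj => ?_⟩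
  · have := h m m (len_cov _ _).ge
    rwa [cov_congr (join_congr (fun _ _ => rfl) fun i hi => ext_cov w hi)] at this
  · rw [len_cov] at hj
    rw [cov_congr (join_congr (fun _ _ => rfl) fun i hi => ext_cov w (hi.trans_le hj))]
    exact h j

theorem Sig.simTr {f f' : α → ℕ} {g g' : α → R} (hf : Cm f) (hg : Cm g) (hf' : Cm f')
    (hg' : Cm g') : Sig (fun a => Sim (Tr (f a) (g a)) (Tr (f' a) (g' a))) :=
  Sig.sim (A := fun a s => Tr (f a) (g a) s) (B := fun a s => Tr (f' a) (g' a) s)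
    (Dl.Tr (by fun_prop) (by fun_prop) (by fun_prop))
    (Dl.Tr (by fun_prop) (by fun_prop) (by fun_prop))

/-- A nonempty analytic set such that every analytic set that meets it is non-meagre. -/
theorem exists_generic : ∃ S : R → Prop, Sig S ∧ (∃ a, S a) ∧
    ∀ A : R → Prop, Sig A → (∃ a, S a ∧ A a) → ¬IsMeagre {y : X | A (emb y)} := by
  have hQ : Sig (fun p : ℕ × ℕ =>
      ¬IsMeagre {y : X | Sim (Tr p.2 (cst p.2)) (Tr p.1 (emb y))}) :=
    Sig.nm (P := fun (p : ℕ × ℕ) y => Sim (Tr p.2 (cst p.2)) (Tr p.1 y))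
      (Sig.simTr (by fun_prop) (by fun_prop) (by fun_prop) (by fun_prop))
  refine ⟨fun a => ∀ e i, Sim (Tr e a) (Tr i (cst i)) ∨
    ¬IsMeagre {y : X | Sim (Tr i (cst i)) (Tr e (emb y))}, ?_, ?_, ?_⟩
  · exact Sig.allN (Sig.allN (Sig.or
      (Sig.simTr (by fun_prop) (by fun_prop) (by fun_prop) (by fun_prop))
      (hQ.comp (f := fun p : (R × ℕ) × ℕ => (p.1.2, p.2)) (by fun_prop))))
  · have : ∀ᶠ y in residual X, ∀ e i, Sim (Tr e (emb y)) (Tr i (cst i)) ∨
        ¬IsMeagre {y : X | Sim (Tr i (cst i)) (Tr e (emb y))} := by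
      refine eventually_countable_forall.2 fun e => eventually_countable_forall.2 fun i => ?_
      by_cases g : IsMeagre {y : X | Sim (Tr i (cst i)) (Tr e (emb y))}
      · exact mem_of_superset g fun y hy => Or.inl ((Sim.total _ _).resolve_right hy)
      · exact Eventually.of_forall fun y => Or.inr g
    obtain ⟨y, hy⟩ := (dense_of_mem_residual this).nonempty
    exact ⟨emb y, hy⟩
  · rintro A hA ⟨a, h1, h2⟩
    obtain ⟨e, he⟩ := hA.code
    obtain ⟨i, hi⟩ := (hQ.comp (f := fun i : ℕ => (e, i)) (by fun_prop)).code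
    have hi' : ¬IsMeagre {y : X | Sim (Tr i (cst i)) (Tr e (emb y))} ↔ Path (Tr i (cst i)) :=
      (hi i).trans (path_Tr _ _).symm
    have h3 : Path (Tr i (cst i)) :=
      (h1 e i).elim (fun g => g.path ((path_Tr _ _).2 ((he a).1 h2))) hi'.1
    exact fun g => hi'.2 h3 (g.mono fun y hy => (he _).2 ((path_Tr _ _).1 (Sim.path hy h3)))

end Pool.Agent.Lib.MP_324817_lc
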