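import Pool.Agent.Lib.MP_324817_lc.Sig

/-!
A nonempty effectively closed set that no hyperarithmetic function sends all inequivalent pairs
into.
-/

set_option autoImplicit false
set_option maxHeartbeats 400000
set_option linter.unusedVariables false

namespace Pool.Agent.Lib.MP_324817_lc

variable {α β γ : Type} [Rep α] [Rep β] [Rep γ]

def ch (s a : ℕ) : ℕ := Nat.pair a s + 1

@[fun_prop]
theorem Cm.ch {f g : α → ℕ} (hf : Cm f) (hg : Cm g) : Cm (fun a => ch (f a) (g a)) := by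
  unfold Pool.Agent.Lib.MP_324817_lc.ch
  fun_prop

/-- `Z` is a simulation of the tree `A` in the tree `B`. -/
def IsSim (A B : ℕ → Prop) (Z : ℕ → ℕ → Prop) : Prop :=
  ∀ s s', Z s s' → A s → B s' ∧ ∀ a, ∃ b, Z (ch s a) (ch s' b)

def SimAt (A B : ℕ → Prop) (s s' : ℕ) : Prop := ∃ Z, IsSim A B Z ∧ Z s s'

def Sim (A B : ℕ → Prop) : Prop := SimAt A B 0 0

def Path (A : ℕ → Prop) : Prop := ∃ y : R, ∀ m, A (cov y m)

theorem Sim.path {A B : ℕ → Prop} (h : Sim A B) (hA : Path A) : Path B := by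
  obtain ⟨Z, hZ, h0⟩ := h
  obtain ⟨y, hy⟩ := hA
  have step : ∀ m s', Z (cov y m) s' → ∃ b, Z (cov y (m + 1)) (ch s' b) :=
    fun m s' h => (hZ _ _ h (hy m)).2 (y m)
  choose! F hF using step
  let g : ℕ → ℕ := fun m => Nat.rec 0 (fun m s' => ch s' (F m s')) m
  have hg : ∀ m, Z (cov y m) (g m) := by
    intro m
    induction m with
    | zero => exact h0
    | succ m ih => exact hF m _ ih
  have hc : ∀ m, cov (fun m => F m (g m)) m = g m := by
    intro m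
    induction m with
    | zero => rfl
    | succ m ih => rw [cov, ih]; rfl
  exact ⟨fun m => F m (g m), fun m => by rw [hc]; exact (hZ _ _ (hg m) (hy m)).1⟩

theorem simAt_of {A B : ℕ → Prop} {s s' : ℕ}
    (h : A s → B s' ∧ ∀ a, ∃ b, SimAt A B (ch s a) (ch s' b)) : SimAt A B s s' := by
  refine ⟨fun t t' => (t = s ∧ t' = s') ∨ SimAt A B t t', ?_, Or.inl ⟨rfl, rfl⟩⟩
  rintro t t' (⟨rfl, rfl⟩ | ⟨Z, hZ, hz⟩) ht
  · obtain ⟨h1, h2⟩ := h ht
    exact ⟨h1, fun a => (h2 a).imp (fun b hb => Or.inr hb)⟩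
  · obtain ⟨h1, h2⟩ := hZ t t' hz ht
    exact ⟨h1, fun a => (h2 a).imp (fun b hb => Or.inr ⟨Z, hZ, hb⟩)⟩

theorem Sim.total (A B : ℕ → Prop) : Sim A B ∨ Sim B A := by
  by_contra hn
  rw [not_or] at hn
  apply hn.1
  refine ⟨fun _ t' => ∃ s, ¬ SimAt A B s t' ∧ ¬ SimAt B A t' s, ?_, 0, hn.1, hn.2⟩
  rintro t t' ⟨s, h1, h2⟩ -
  have k1 := mt simAt_of h1
  have k2 := mt simAt_of h2
  push Not at k1 k2
  obtain ⟨a0, ha⟩ := k1.2 k2.1
  obtain ⟨b0, hb⟩ := k2.2 k1.1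
  exact ⟨k2.1, fun _ => ⟨b0, ch s a0, ha b0, hb a0⟩⟩

theorem sim_iff (A B : ℕ → Prop) : Sim A B ↔ ∃ w : R, ap w (Nat.pair 0 0) = 0 ∧
    ∀ s s', ap w (Nat.pair s s') = 0 → A s →
      B s' ∧ ∀ a, ∃ b, ap w (Nat.pair (ch s a) (ch s' b)) = 0 := by
  classical
  constructor
  · rintro ⟨Z, hZ, h0⟩
    refine ⟨fun n => if Z (p1 n) (p2 n) then 0 else 1, ?_, ?_⟩
    · simp only [ap, p1_pair, p2_pair, if_pos h0]
    · simpa [ap, IsSim] using hZ
  · rintro ⟨w, h0, h⟩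
    exact ⟨fun s s' => ap w (Nat.pair s s') = 0, h, h0⟩

theorem Sig.sim {A B : α → ℕ → Prop} (hA : Dl (fun p : α × ℕ => A p.1 p.2))
    (hB : Dl (fun p : α × ℕ => B p.1 p.2)) : Sig (fun a => Sim (A a) (B a)) := by
  simp only [sim_iff]
  refine Sig.exR (Dl.and (Dl.zero (by fun_prop)) (Dl.allN (Dl.allN (Dl.imp (Dl.zero (by fun_prop))
    (Dl.imp ?_ (Dl.and ?_ (Dl.allN (Dl.exN (Dl.zero (by fun_prop)))))))))).1
  · exact hA.comp (f := fun p : ((α × R) × ℕ) × ℕ => (p.1.1.1, p.1.2)) (by fun_prop)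
  · exact hB.comp (f := fun p : ((α × R) × ℕ) × ℕ => (p.1.1.1, p.2)) (by fun_prop)

def mix (x v : R) : R := join (join x (left v)) (right v)

@[fun_prop]
theorem Cm.mix {f g : α → R} (hf : Cm f) (hg : Cm g) : Cm (fun a => mix (f a) (g a)) := by
  unfold Pool.Agent.Lib.MP_324817_lc.mix
  fun_prop

theorem mix_congr (x : R) {v v' : R} {j : ℕ} (h : ∀ i < j, v i = v' i) :
    ∀ i < j, mix x v i = mix x v' i := by
  intro i hi
  unfold mix join left right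
  split_ifs with h1 h2
  · rfl
  · exact h _ (by omega)
  · exact h _ (by omega)

/-- The tree of attempts at a value `z` of the `e`-th analytic relation at `x`, with a witness,
such that `left z n = m`. -/
def U (e : ℕ) (x : R) (n m s : ℕ) : Prop :=
  (∀ j, j ≤ len s → ok e (cov (mix x (ext s)) j)) ∧ (4 * n < len s → ap (ext s) (4 * n) = m)

theorem path_U (e : ℕ) (x : R) (n m : ℕ) : Path (U e x n m) ↔
    ∃ z, (∃ w, ∀ j, ok e (cov (join (join x z) w) j)) ∧ left z n = m := by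
  constructor
  · rintro ⟨v, hv⟩
    refine ⟨left v, ⟨right v, fun j => ?_⟩, ?_⟩
    · have := (hv j).1 j (by simp)
      rwa [cov_congr (mix_congr x (fun i hi => ext_cov v hi))] at this
    · have := (hv (4 * n + 1)).2 (by simp)
      rw [ap, ext_cov v (by omega)] at this
      rw [← this]; unfold left; congr 1; ring
  · rintro ⟨z, ⟨w, hw⟩, hm⟩
    refine ⟨join z w, fun k => ⟨fun j hj => ?_, fun hk => ?_⟩⟩
    · rw [len_cov] at hj
      rw [cov_congr (mix_congr x (fun i hi => ext_cov (join z w) (lt_of_lt_of_le hi hj)))]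
      simpa [mix] using hw j
    · rw [len_cov] at hk
      rw [ap, ext_cov _ hk, ← hm]
      have : join z w (4 * n) = left (join z w) (2 * n) := by unfold left; congr 1; ring
      rw [this, left_join]; rfl

theorem Dl.U {f : α → ℕ} {g : α → R} {k l s : α → ℕ} (hf : Cm f) (hg : Cm g) (hk : Cm k)
    (hl : Cm l) (hs : Cm s) : Dl (fun a => U (f a) (g a) (k a) (l a) (s a)) :=
  Dl.and (Dl.allN (Dl.imp (Dl.le (by fun_prop) (by fun_prop)) (Dl.ok (by fun_prop) (by fun_prop))))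
    (Dl.imp (Dl.lt (by fun_prop) (by fun_prop)) (Dl.eq (by fun_prop) (by fun_prop)))

/-- `m` is not certified as the `n`-th digit. -/
def NP (e : ℕ) (x : R) (n m : ℕ) : Prop := ∃ m', m' ≠ m ∧ Sim (U e x n m) (U e x n m')

theorem Sig.NP {f : α → ℕ} {g : α → R} {k l : α → ℕ} (hf : Cm f) (hg : Cm g) (hk : Cm k)
    (hl : Cm l) : Sig (fun a => NP (f a) (g a) (k a) (l a)) := by
  refine Sig.exN (Sig.and (Dl.ne (by fun_prop) (by fun_prop)).1 ?_)
  exact Sig.sim (A := fun (p : α × ℕ) s => U (f p.1) (g p.1) (k p.1) (l p.1) s)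
    (B := fun (p : α × ℕ) s => U (f p.1) (g p.1) (k p.1) p.2 s)
    (Dl.U (by fun_prop) (by fun_prop) (by fun_prop) (by fun_prop) (by fun_prop))
    (Dl.U (by fun_prop) (by fun_prop) (by fun_prop) (by fun_prop) (by fun_prop))

theorem NP_unique {e : ℕ} {x : R} {n m m' : ℕ} (h : ¬ NP e x n m) (h' : ¬ NP e x n m') :
    m = m' := by
  by_contra hne
  rcases Sim.total (U e x n m) (U e x n m') with k | k
  · exact h ⟨m', fun h => hne h.symm, k⟩
  · exact h' ⟨m, hne, k⟩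

theorem not_NP {e : ℕ} {x z0 : R}
    (h : ∀ z, (∃ w, ∀ j, ok e (cov (join (join x z) w) j)) ↔ z0 = z) (n : ℕ) :
    ¬ NP e x n (left z0 n) := by
  rintro ⟨m', hm, hs⟩
  obtain ⟨z, hz, hz'⟩ := (path_U _ _ _ _).1 (hs.path ((path_U _ _ _ _).2 ⟨z0, (h z0).2 rfl, rfl⟩))
  rw [← (h z).1 hz] at hz'
  exact hm hz'.symm

/-- The `i`-th effectively closed set. -/
def B (i : ℕ) (w : R) : Prop := ∀ m, ok i (cov (join (cst i) w) m)

theorem Dl.B {f : α → ℕ} {g : α → R} (hf : Cm f) (hg : Cm g) : Dl (fun a => B (f a) (g a)) :=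
  Dl.allN (Dl.ok (by fun_prop) (by fun_prop))

def NPsi (e i : ℕ) (x : R) : Prop :=
  (∃ n, ∀ m, NP e x n m) ∨ (∃ b : R, ¬ B i b ∧ ∀ j m, m ≠ ap b j → NP e x j m)

theorem Sig.NPsi {f k : α → ℕ} {g : α → R} (hf : Cm f) (hk : Cm k) (hg : Cm g) :
    Sig (fun a => NPsi (f a) (k a) (g a)) :=
  Sig.or (Sig.exN (Sig.allN (Sig.NP (by fun_prop) (by fun_prop) (by fun_prop) (by fun_prop))))
    (Sig.exR (Sig.and (Dl.B (by fun_prop) (by fun_prop)).2
      (Sig.allN (Sig.allN (Sig.imp (Dl.ne (by fun_prop) (by fun_prop)).2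
        (Sig.NP (by fun_prop) (by fun_prop) (by fun_prop) (by fun_prop)))))))

theorem nonempty_of_not_NPsi {e i : ℕ} {x : R} (h : ¬ NPsi e i x) : ∃ b, B i b := by
  unfold NPsi at h
  push Not at h
  obtain ⟨h1, h2⟩ := h
  choose b hb using h1
  refine ⟨b, ?_⟩
  by_contra hB
  obtain ⟨j, m, hm, hp⟩ := h2 b hB
  exact hm (NP_unique hp (hb j))

theorem not_B_of_NPsi {e i : ℕ} {x z0 : R}
    (h : ∀ z, (∃ w, ∀ j, ok e (cov (join (join x z) w) j)) ↔ z0 = z) (hn : NPsi e i x) :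
    ¬ B i (left z0) := by
  intro hB
  rcases hn with ⟨n, hn⟩ | ⟨b, hb, hn⟩
  · exact not_NP h n (hn _)
  · have : left z0 ≠ b := fun k => hb (k ▸ hB)
    obtain ⟨j, hj⟩ := Function.ne_iff.1 this
    exact not_NP h j (hn j _ hj)

theorem part1 {E : R → R → Prop} (hE : Sig (fun p : R × R => ¬ E p.1 p.2))
    (hxy : ∃ x y, ¬ E x y) : ∃ i, (∃ b, B i b) ∧ ∀ f : R → R,
      Sig (fun p : R × R => f p.1 = p.2) →
        ∃ x y, ¬ E x y ∧ ¬ B i (left (f x)) ∧ ¬ B i (left (f y)) := by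
  have hQ : Sig (fun i : ℕ => ∀ e, ∃ x y, ¬ E x y ∧ NPsi e i x ∧ NPsi e i y) := by
    refine Sig.allN (Sig.exR (Sig.exR (Sig.and ?_ (Sig.and
      (Sig.NPsi (by fun_prop) (by fun_prop) (by fun_prop))
      (Sig.NPsi (by fun_prop) (by fun_prop) (by fun_prop))))))
    exact hE.comp (f := fun p : ((ℕ × ℕ) × R) × R => (p.1.2, p.2)) (by fun_prop)
  obtain ⟨i, hi⟩ := hQ.code
  have hi' : (∀ e, ∃ x y, ¬ E x y ∧ NPsi e i x ∧ NPsi e i y) ↔ ∃ b, B i b := hi i
  have hB : ∃ b, B i b := by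
    by_contra hB
    have h1 := mt hi'.1 hB
    push Not at h1
    obtain ⟨e, he⟩ := h1
    obtain ⟨x, y, hxy⟩ := hxy
    by_cases hx : NPsi e i x
    · exact hB (nonempty_of_not_NPsi (he x y hxy hx))
    · exact hB (nonempty_of_not_NPsi hx)
  refine ⟨i, hB, fun f hf => ?_⟩
  obtain ⟨e, he⟩ := hf.code
  obtain ⟨x, y, h1, h2, h3⟩ := hi'.2 hB e
  exact ⟨x, y, h1, not_B_of_NPsi (fun z => (he (x, z)).symm) h2,
    not_B_of_NPsi (fun z => (he (y, z)).symm) h3⟩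

end Pool.Agent.Lib.MP_324817_lc
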