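import Pool.Agent.Lib.MP_324817_lc.Good

/-!
Lightface analytic predicates on represented spaces and their closure properties.
-/

set_option autoImplicit false
set_option maxHeartbeats 400000
set_option linter.unusedVariables false

namespace Pool.Agent.Lib.MP_324817_lc

variable {α β γ : Type} [Rep α] [Rep β] [Rep γ]

/-- Lightface analytic predicates. -/
def Sig (P : α → Prop) : Prop :=
  ∃ T : (α × R) × ℕ → ℕ, Cm T ∧ ∀ a, P a ↔ ∃ w : R, ∀ n, T ((a, w), n) = 0

theorem Sig.of_iff {P Q : α → Prop} (h : Sig P) (e : ∀ a, P a ↔ Q a) : Sig Q := by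
  have : P = Q := by funext a; exact propext (e a)
  exact this ▸ h

theorem Sig.comp {P : β → Prop} (h : Sig P) {f : α → β} (hf : Cm f) : Sig (fun a => P (f a)) := by
  obtain ⟨T, hT, e⟩ := h
  exact ⟨fun p => T ((f p.1.1, p.1.2), p.2), by fun_prop, fun a => e (f a)⟩

theorem Sig.and {P Q : α → Prop} (hP : Sig P) (hQ : Sig Q) : Sig (fun a => P a ∧ Q a) := by
  obtain ⟨T, hT, e⟩ := hP
  obtain ⟨U, hU, e'⟩ := hQ
  refine ⟨fun p => T ((p.1.1, left p.1.2), p.2) + U ((p.1.1, right p.1.2), p.2), by fun_prop,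
    fun a => ?_⟩
  simp only [e, e']
  constructor
  · rintro ⟨⟨w, hw⟩, ⟨v, hv⟩⟩
    exact ⟨join w v, fun n => by simp [hw, hv]⟩
  · rintro ⟨w, hw⟩
    exact ⟨⟨left w, fun n => by have := hw n; omega⟩, ⟨right w, fun n => by have := hw n; omega⟩⟩

theorem Sig.exR {P : α → R → Prop} (h : Sig (fun p : α × R => P p.1 p.2)) :
    Sig (fun a => ∃ y, P a y) := by
  obtain ⟨T, hT, e⟩ := h
  refine ⟨fun p => T (((p.1.1, left p.1.2), right p.1.2), p.2), by fun_prop, fun a => ?_⟩
  constructor
  · rintro ⟨y, hy⟩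
    obtain ⟨w, hw⟩ := (e (a, y)).1 hy
    exact ⟨join y w, fun n => by simpa using hw n⟩
  · rintro ⟨w, hw⟩
    exact ⟨left w, (e (a, left w)).2 ⟨right w, hw⟩⟩

theorem Sig.exN {P : α → ℕ → Prop} (h : Sig (fun p : α × ℕ => P p.1 p.2)) :
    Sig (fun a => ∃ m, P a m) := by
  have h1 := h.comp (f := fun p : α × R => (p.1, ap p.2 0)) (by fun_prop)
  refine (Sig.exR (P := fun a y => P a (ap y 0)) h1).of_iff (fun a => ?_)
  exact ⟨fun ⟨y, hy⟩ => ⟨_, hy⟩, fun ⟨m, hm⟩ => ⟨cst m, hm⟩⟩

theorem Sig.allN {P : α → ℕ → Prop} (h : Sig (fun p : α × ℕ => P p.1 p.2)) :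
    Sig (fun a => ∀ m, P a m) := by
  obtain ⟨T, hT, e⟩ := h
  refine ⟨fun p => T (((p.1.1, p1 p.2), col p.1.2 (p1 p.2)), p2 p.2), by fun_prop, fun a => ?_⟩
  constructor
  · intro h
    choose W hW using fun m => (e (a, m)).1 (h m)
    refine ⟨fun n => W (p1 n) (p2 n), fun n => ?_⟩
    have : col (fun n => W (p1 n) (p2 n)) (p1 n) = W (p1 n) := by funext j; simp [col]
    simp only [this]
    exact hW _ _
  · rintro ⟨w, hw⟩ m
    exact (e (a, m)).2 ⟨col w m, fun n => by simpa using hw (Nat.pair m n)⟩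

theorem Sig.or {P Q : α → Prop} (hP : Sig P) (hQ : Sig Q) : Sig (fun a => P a ∨ Q a) := by
  obtain ⟨T, hT, e⟩ := hP
  obtain ⟨U, hU, e'⟩ := hQ
  refine ⟨fun p => cz (ap (left p.1.2) 0) (T ((p.1.1, right p.1.2), p.2))
    (U ((p.1.1, right p.1.2), p.2)), by fun_prop, fun a => ?_⟩
  simp only [e, e']
  constructor
  · rintro (⟨w, hw⟩ | ⟨w, hw⟩)
    · exact ⟨join (cst 0) w, fun n => by simp [cz, ap, cst, hw]⟩
    · exact ⟨join (cst 1) w, fun n => by simp [cz, ap, cst, hw]⟩
  · rintro ⟨w, hw⟩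
    by_cases h : ap (left w) 0 = 0
    · exact Or.inl ⟨right w, fun n => by simpa [cz, h] using hw n⟩
    · exact Or.inr ⟨right w, fun n => by simpa [cz, h] using hw n⟩

theorem Sig.imp {P Q : α → Prop} (hP : Sig (fun a => ¬ P a)) (hQ : Sig Q) :
    Sig (fun a => P a → Q a) :=
  (hP.or hQ).of_iff (fun a => by tauto)

theorem Sig.zero {f : α → ℕ} (hf : Cm f) : Sig (fun a => f a = 0) :=
  ⟨fun p => f p.1.1, by fun_prop, fun a => by simp⟩

/-- Predicates that are lightface analytic and coanalytic. -/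
def Dl (P : α → Prop) : Prop := Sig P ∧ Sig (fun a => ¬ P a)

theorem Dl.of_iff {P Q : α → Prop} (h : Dl P) (e : ∀ a, P a ↔ Q a) : Dl Q := by
  have : P = Q := by funext a; exact propext (e a)
  exact this ▸ h

theorem Dl.comp {P : β → Prop} (h : Dl P) {f : α → β} (hf : Cm f) : Dl (fun a => P (f a)) :=
  ⟨h.1.comp hf, h.2.comp hf⟩

theorem Dl.not {P : α → Prop} (h : Dl P) : Dl (fun a => ¬ P a) :=
  ⟨h.2, h.1.of_iff (fun a => by tauto)⟩

theorem Dl.and {P Q : α → Prop} (hP : Dl P) (hQ : Dl Q) : Dl (fun a => P a ∧ Q a) :=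
  ⟨hP.1.and hQ.1, (hP.2.or hQ.2).of_iff (fun a => by tauto)⟩

theorem Dl.or {P Q : α → Prop} (hP : Dl P) (hQ : Dl Q) : Dl (fun a => P a ∨ Q a) :=
  ⟨hP.1.or hQ.1, (hP.2.and hQ.2).of_iff (fun a => by tauto)⟩

theorem Dl.imp {P Q : α → Prop} (hP : Dl P) (hQ : Dl Q) : Dl (fun a => P a → Q a) :=
  (hP.not.or hQ).of_iff (fun a => by tauto)

theorem Dl.allN {P : α → ℕ → Prop} (h : Dl (fun p : α × ℕ => P p.1 p.2)) :
    Dl (fun a => ∀ m, P a m) :=
  ⟨Sig.allN h.1, (Sig.exN (P := fun a m => ¬ P a m) h.2).of_iff (fun a => by simp)⟩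

theorem Dl.exN {P : α → ℕ → Prop} (h : Dl (fun p : α × ℕ => P p.1 p.2)) :
    Dl (fun a => ∃ m, P a m) :=
  ⟨Sig.exN h.1, (Sig.allN (P := fun a m => ¬ P a m) h.2).of_iff (fun a => by simp)⟩

theorem Dl.zero {f : α → ℕ} (hf : Cm f) : Dl (fun a => f a = 0) :=
  ⟨Sig.zero hf, (Sig.zero (f := fun a => cz (f a) 1 0) (by fun_prop)).of_iff
    (fun a => by simp [cz])⟩

theorem Dl.eq {f g : α → ℕ} (hf : Cm f) (hg : Cm g) : Dl (fun a => f a = g a) :=
  (Dl.zero (f := fun a => (f a - g a) + (g a - f a)) (by fun_prop)).of_iff (fun a => by omega)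

theorem Dl.ne {f g : α → ℕ} (hf : Cm f) (hg : Cm g) : Dl (fun a => f a ≠ g a) :=
  (Dl.eq hf hg).not

theorem Dl.le {f g : α → ℕ} (hf : Cm f) (hg : Cm g) : Dl (fun a => f a ≤ g a) :=
  (Dl.zero (f := fun a => f a - g a) (by fun_prop)).of_iff (fun a => by omega)

theorem Dl.lt {f g : α → ℕ} (hf : Cm f) (hg : Cm g) : Dl (fun a => f a < g a) :=
  (Dl.zero (f := fun a => f a + 1 - g a) (by fun_prop)).of_iff (fun a => by omega)

/-! ### Codes of finite sequences -/

/-- The code of the initial segment of length `m` of `y`. -/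
def cov (y : R) : ℕ → ℕ
  | 0 => 0
  | m + 1 => Nat.pair (y m) (cov y m) + 1

def dec (s : ℕ) : List ℕ := (Encodable.decode (α := List ℕ) s).getD []

def len (s : ℕ) : ℕ := (dec s).length

def ext (s : ℕ) : R := fun j => (dec s).reverse.getD j 0

def fw (s : ℕ) : R := fun j => (dec s).getD j 0

theorem dec_encode (l : List ℕ) : dec (Encodable.encode l) = l := by simp [dec]

theorem cov_eq (y : R) (m : ℕ) :
    cov y m = Encodable.encode ((List.range m).map y).reverse := by
  induction m with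
  | zero => simp [cov]
  | succ m ih => simp [cov, ih, List.range_succ]

theorem dec_cov (y : R) (m : ℕ) : dec (cov y m) = ((List.range m).map y).reverse := by
  rw [cov_eq, dec_encode]

@[simp] theorem len_cov (y : R) (m : ℕ) : len (cov y m) = m := by simp [len, dec_cov]

theorem ext_cov (y : R) {m j : ℕ} (h : j < m) : ext (cov y m) j = y j := by
  simp [ext, dec_cov, List.getD_eq_getElem?_getD, h]

theorem cov_congr {y z : R} {m : ℕ} (h : ∀ j < m, y j = z j) : cov y m = cov z m := by
  induction m with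
  | zero => rfl
  | succ m ih => rw [cov, cov, h m (by omega), ih (fun j hj => h j (by omega))]

theorem le_cov (y : R) (m : ℕ) : m ≤ cov y m := by
  induction m with
  | zero => simp
  | succ m ih =>
    have := Nat.right_le_pair (y m) (cov y m)
    rw [cov]; omega

theorem exists_cov (s : ℕ) : ∃ y m, s = cov y m := by
  induction s using Nat.strong_induction_on with
  | _ s ih =>
    cases s with
    | zero => exact ⟨fun _ => 0, 0, rfl⟩
    | succ s =>
      obtain ⟨y, m, h⟩ := ih s.unpair.2 (Nat.lt_succ_of_le (Nat.unpair_right_le s))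
      refine ⟨fun j => if j < m then y j else s.unpair.1, m + 1, ?_⟩
      rw [cov, if_neg (lt_irrefl m), cov_congr (z := y) (fun j hj => if_pos hj), ← h,
        Nat.pair_unpair]

theorem cov_ext (s : ℕ) : cov (ext s) (len s) = s := by
  obtain ⟨y, m, rfl⟩ := exists_cov s
  rw [len_cov]
  exact cov_congr (fun j hj => ext_cov y hj)

theorem cov_inj {y z : R} {m k : ℕ} (h : cov y m = cov z k) : m = k ∧ ∀ j < m, y j = z j := by
  have h1 : m = k := by rw [← len_cov y m, h, len_cov]
  subst h1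
  exact ⟨rfl, fun j hj => by rw [← ext_cov y hj, h, ext_cov z hj]⟩

theorem pr_dec : Primrec dec := Primrec.option_getD.comp Primrec.decode (Primrec.const [])

@[fun_prop]
theorem Cm.len {f : α → ℕ} (hf : Cm f) : Cm (fun a => len (f a)) :=
  (Cm.of_computable (Primrec.list_length.comp pr_dec).to_comp).comp hf

@[fun_prop]
theorem Cm.ext {f : α → ℕ} (hf : Cm f) : Cm (fun a => ext (f a)) := by
  apply Cm.lam
  have h : Primrec₂ (fun s j : ℕ => Pool.Agent.Lib.MP_324817_lc.ext s j) :=
    (Primrec.list_getD 0).comp (Primrec.list_reverse.comp (pr_dec.comp Primrec.fst)) Primrec.snd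
  exact Cm.of_computable₂ h.to_comp (by fun_prop) (by fun_prop)

@[fun_prop]
theorem Cm.fw {f : α → ℕ} (hf : Cm f) : Cm (fun a => fw (f a)) := by
  apply Cm.lam
  have h : Primrec₂ (fun s j : ℕ => Pool.Agent.Lib.MP_324817_lc.fw s j) :=
    (Primrec.list_getD 0).comp (pr_dec.comp Primrec.fst) Primrec.snd
  exact Cm.of_computable₂ h.to_comp (by fun_prop) (by fun_prop)

theorem Good.cov : Good (fun y m => cov y m) := by
  have h1 : Good (fun (x : R) b => Nat.pair (x b.unpair.2.unpair.1) b.unpair.2.unpair.2 + 1) :=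
    (Good.pair (Good.orc.pre (c_fst.comp c_snd)) (Good.cf _ (c_snd.comp c_snd))).post
      Computable.succ
  refine ((Good.prec (Good.const 0) h1).pre (f := fun m => Nat.pair 0 m)
    (c_pair (Computable.const 0) Computable.id)).of_eq (fun x m => ?_)
  simp only [Nat.unpair_pair]
  induction m with
  | zero => rfl
  | succ m ih => rw [Pool.Agent.Lib.MP_324817_lc.cov, ← ih]

@[fun_prop]
theorem Cm.cov {f : α → R} {g : α → ℕ} (hf : Cm f) (hg : Cm g) :
    Cm (fun a => cov (f a) (g a)) :=
  Cm.ap ((Cm.of_good Good.cov).comp hf) hg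

/-! ### Normal form -/

theorem Good.nf {t : R → ℕ → ℕ} (ht : Good t) : ∃ h : ℕ → ℕ → Option ℕ, Computable₂ h ∧
    (∀ y m a v, h (Pool.Agent.Lib.MP_324817_lc.cov y m) a = some v → t y a = v) ∧
    (∀ y a, ∃ m0, ∀ m ≥ m0, h (Pool.Agent.Lib.MP_324817_lc.cov y m) a = some (t y a)) := by
  induction ht with
  | cf f hf =>
    exact ⟨fun _ a => some (f a), Computable.option_some.comp (hf.comp Computable.snd),
      fun y m a v h => by simpa using h, fun y a => ⟨0, fun _ _ => rfl⟩⟩
  | orc =>
    refine ⟨fun s a => (dec s).reverse[a]?, (Primrec.list_getElem?.comp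
      (Primrec.list_reverse.comp (pr_dec.comp Primrec.fst)) Primrec.snd).to_comp, ?_, ?_⟩
    · intro y m a v h
      simp only [dec_cov, List.reverse_reverse, List.getElem?_map, Option.map_eq_some_iff] at h
      obtain ⟨b, hb, rfl⟩ := h
      rw [List.getElem?_eq_some_iff] at hb
      obtain ⟨_, hb⟩ := hb
      simp at hb
      rw [hb]
    · intro y a
      refine ⟨a + 1, fun m hm => ?_⟩
      have : a < m := by omega
      simp [dec_cov, this]
  | pair _ _ ih1 ih2 =>
    obtain ⟨h1, c1, s1, e1⟩ := ih1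
    obtain ⟨h2, c2, s2, e2⟩ := ih2
    refine ⟨fun s a => (h1 s a).bind (fun u => (h2 s a).map (fun v => Nat.pair u v)), ?_, ?_, ?_⟩
    · exact Computable.option_bind c1 (Computable.option_map
        (Computable₂.comp c2 (Computable.fst.comp Computable.fst)
          (Computable.snd.comp Computable.fst))
        (c_pair (Computable.snd.comp Computable.fst) Computable.snd))
    · intro y m a v h
      simp only [Option.bind_eq_some_iff, Option.map_eq_some_iff] at h
      obtain ⟨u, hu, w, hw, rfl⟩ := h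
      simp only [s1 _ _ _ _ hu, s2 _ _ _ _ hw]
    · intro y a
      obtain ⟨m1, k1⟩ := e1 y a
      obtain ⟨m2, k2⟩ := e2 y a
      exact ⟨max m1 m2, fun m hm => by simp [k1 m (by omega), k2 m (by omega)]⟩
  | @app t s _ _ ih1 ih2 =>
    obtain ⟨h1, c1, s1, e1⟩ := ih1
    obtain ⟨h2, c2, s2, e2⟩ := ih2
    refine ⟨fun s a => (h2 s a).bind (fun u => h1 s u), ?_, ?_, ?_⟩
    · exact Computable.option_bind c2
        (Computable₂.comp c1 (Computable.fst.comp Computable.fst) Computable.snd)
    · intro y m a v h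
      simp only [Option.bind_eq_some_iff] at h
      obtain ⟨u, hu, hw⟩ := h
      simp only [s2 _ _ _ _ hu, s1 _ _ _ _ hw]
    · intro y a
      obtain ⟨m2, k2⟩ := e2 y a
      obtain ⟨m1, k1⟩ := e1 y (s y a)
      exact ⟨max m1 m2, fun m hm => by simp [k1 m (by omega), k2 m (by omega)]⟩
  | @prec s t _ _ ih1 ih2 =>
    obtain ⟨h1, c1, s1, e1⟩ := ih1
    obtain ⟨h2, c2, s2, e2⟩ := ih2
    refine ⟨fun c a => Nat.rec (motive := fun _ => Option ℕ) (h1 c a.unpair.1)
      (fun k ih => ih.bind (fun i => h2 c (Nat.pair a.unpair.1 (Nat.pair k i)))) a.unpair.2,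
      ?_, ?_, ?_⟩
    · have d1 := Computable₂.comp (α := ℕ × ℕ) c1 Computable.fst (c_fst.comp Computable.snd)
      have d2 := Computable₂.comp (α := ((ℕ × ℕ) × ℕ × Option ℕ) × ℕ) c2
        (Computable.fst.comp (Computable.fst.comp Computable.fst))
        (c_pair (c_fst.comp (Computable.snd.comp (Computable.fst.comp Computable.fst)))
          (c_pair (Computable.fst.comp (Computable.snd.comp Computable.fst)) Computable.snd))
      have d2' : Computable₂ (fun (p : (ℕ × ℕ) × ℕ × Option ℕ) (i : ℕ) =>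
          h2 p.1.1 (Nat.pair p.1.2.unpair.1 (Nat.pair p.2.1 i))) := Computable₂.mk d2
      have d3 : Computable₂ (fun (p : ℕ × ℕ) (q : ℕ × Option ℕ) =>
          q.2.bind (fun i => h2 p.1 (Nat.pair p.2.unpair.1 (Nat.pair q.1 i)))) :=
        Computable₂.mk (Computable.option_bind (Computable.snd.comp Computable.snd) d2')
      have := Computable.nat_rec (α := ℕ × ℕ) (f := fun p => p.2.unpair.2)
        (g := fun p => h1 p.1 p.2.unpair.1)
        (h := fun p q => q.2.bind (fun i => h2 p.1 (Nat.pair p.2.unpair.1 (Nat.pair q.1 i))))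
        (c_snd.comp Computable.snd) d1 d3
      exact this
    · intro y m a
      simp only
      generalize a.unpair.2 = k
      induction k with
      | zero => exact fun v h => s1 _ _ _ _ h
      | succ k ih =>
        intro v h
        simp only [Option.bind_eq_some_iff] at h
        obtain ⟨u, hu, hw⟩ := h
        simp only [ih u hu, s2 _ _ _ _ hw]
    · intro y a
      simp only
      generalize a.unpair.2 = k
      induction k with
      | zero => exact e1 _ _
      | succ k ih =>
        obtain ⟨m1, k1⟩ := ih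
        obtain ⟨m2, k2⟩ := e2 y (Nat.pair a.unpair.1 (Nat.pair k
          (Nat.rec (motive := fun _ => ℕ) (s y a.unpair.1)
            (fun k ih => t y (Nat.pair a.unpair.1 (Nat.pair k ih))) k)))
        exact ⟨max m1 m2, fun m hm => by simp only [k1 m (by omega), Option.bind_some,
          k2 m (by omega)]⟩

/-- Every analytic predicate comes from a computable test on finite sequences. -/
theorem Sig.nf {P : α → Prop} (h : Sig P) : ∃ r : ℕ → ℕ → ℕ, Computable₂ r ∧
    (∀ a, P a → ∃ w, ∀ m j, r (cov (join (Rep.enc a) w) m) j = 0) ∧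
    (∀ a w, (∀ j m0, ∃ m ≥ m0, r (cov (join (Rep.enc a) w) m) j = 0) → P a) := by
  obtain ⟨T, hT, e⟩ := h
  obtain ⟨t, ht, et⟩ := Cm.lam (f := fun (p : α × R) (n : ℕ) => T (p, n)) hT
  obtain ⟨h, c, s1, e1⟩ := ht.nf
  have et' : ∀ a w n, T ((a, w), n) = t (join (Rep.enc a) w) n :=
    fun a w n => congrFun (et (a, w)) n
  refine ⟨fun s j => (h s j).getD 0, Computable.option_getD c (Computable.const 0), ?_, ?_⟩
  · intro a ha
    obtain ⟨w, hw⟩ := (e a).1 ha
    refine ⟨w, fun m j => ?_⟩
    simp only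
    cases hv : h (cov (join (Rep.enc a) w) m) j with
    | none => rfl
    | some v =>
      have := s1 _ _ _ _ hv
      rw [← et', hw] at this
      simp [← this]
  · intro a w hw
    refine (e a).2 ⟨w, fun n => ?_⟩
    obtain ⟨m0, k⟩ := e1 (join (Rep.enc a) w) n
    obtain ⟨m, hm, hr⟩ := hw n m0
    simp only at hr
    rw [k m hm] at hr
    rw [et']
    simpa using hr

/-! ### The universal test -/

open Nat.Partrec in
def uni (e s j : ℕ) : ℕ :=
  (Code.evaln (p2 j) (Denumerable.ofNat Code e) (Nat.pair s (p1 j))).getD 0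

open Nat.Partrec in
@[fun_prop]
theorem Cm.uni {f g k : α → ℕ} (hf : Cm f) (hg : Cm g) (hk : Cm k) :
    Cm (fun a => uni (f a) (g a) (k a)) := by
  have h : Primrec (fun n : ℕ => Pool.Agent.Lib.MP_324817_lc.uni n.unpair.1
      n.unpair.2.unpair.1 n.unpair.2.unpair.2) := by
    have u1 : Primrec (fun n : ℕ => n.unpair.1) := Primrec.fst.comp Primrec.unpair
    have u2 : Primrec (fun n : ℕ => n.unpair.2) := Primrec.snd.comp Primrec.unpair
    exact Primrec.option_getD.comp (Code.primrec_evaln.comp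
      (((u2.comp (u2.comp u2)).pair ((Primrec.ofNat Code).comp u1)).pair
        (Primrec₂.natPair.comp (u1.comp u2) (u1.comp (u2.comp u2))))) (Primrec.const 0)
  have := (Cm.of_computable h.to_comp).comp (hf.natPair (hg.natPair hk))
  simpa using this

def ok (e s : ℕ) : Prop := ∀ j, uni e s j = 0

theorem Dl.ok {f g : α → ℕ} (hf : Cm f) (hg : Cm g) : Dl (fun a => ok (f a) (g a)) :=
  Dl.allN (Dl.zero (by fun_prop))

open Nat.Partrec in
theorem Sig.code {P : α → Prop} (h : Sig P) :
    ∃ e, ∀ a, P a ↔ ∃ w, ∀ m, ok e (cov (join (Rep.enc a) w) m) := by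
  obtain ⟨r, c, h1, h2⟩ := h.nf
  have c' : Computable (fun n : ℕ => r n.unpair.1 n.unpair.2) := c.comp c_fst c_snd
  obtain ⟨cd, hcd⟩ := Code.exists_code.1 (Partrec.nat_iff.1 c'.partrec)
  have key : ∀ s, ok (Encodable.encode cd) s ↔ ∀ j, r s j = 0 := by
    intro s
    unfold ok uni
    rw [Denumerable.ofNat_encode]
    constructor
    · intro hs j
      have : r s j ∈ cd.eval (Nat.pair s j) := by rw [hcd]; simp
      obtain ⟨k, hk⟩ := Code.evaln_complete.1 this
      have h3 := hs (Nat.pair j k)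
      simp only [p1_pair, p2_pair] at h3
      rw [Option.mem_def.1 hk] at h3
      simpa using h3
    · intro hs j
      cases hv : Code.evaln (p2 j) cd (Nat.pair s (p1 j)) with
      | none => rfl
      | some v =>
        have := Code.evaln_sound (Option.mem_def.2 hv)
        rw [hcd] at this
        simp at this
        rw [this, hs]; rfl
  refine ⟨Encodable.encode cd, fun a => ⟨fun ha => ?_, ?_⟩⟩
  · obtain ⟨w, hw⟩ := h1 a ha
    exact ⟨w, fun m => (key _).2 (hw m)⟩
  · rintro ⟨w, hw⟩
    exact h2 a w (fun j m0 => ⟨m0, le_rfl, (key _).1 (hw m0) j⟩)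

/-! ### Comparison with the definition through lists -/

def FS (S : R → R → Prop) : Prop :=
  ∃ Q : List ℕ × List ℕ × List ℕ → Bool, Computable Q ∧
    ∀ x y : ℕ → ℕ, S x y ↔ ∃ w : ℕ → ℕ, ∀ n : ℕ,
      Q (List.ofFn (fun i : Fin n => x i.val), List.ofFn (fun i : Fin n => y i.val),
        List.ofFn (fun i : Fin n => w i.val)) = true

theorem ofFn_eq (x : R) (n : ℕ) :
    List.ofFn (fun i : Fin n => x i.val) = (List.range n).map x := by
  apply List.ext_getElem <;> simp

theorem FS.sig {S : R → R → Prop} (h : FS S) : Sig (fun p : R × R => S p.1 p.2) := by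
  obtain ⟨Q, hQ, e⟩ := h
  have u : Primrec (fun s => (dec s).reverse) := Primrec.list_reverse.comp pr_dec
  have c : Computable (fun n : ℕ => bif Q ((dec n.unpair.1).reverse,
      (dec n.unpair.2.unpair.1).reverse, (dec n.unpair.2.unpair.2).reverse) then 0 else 1) :=
    Computable.cond (hQ.comp ((u.to_comp.comp c_fst).pair
      ((u.to_comp.comp (c_fst.comp c_snd)).pair (u.to_comp.comp (c_snd.comp c_snd)))))
      (Computable.const 0) (Computable.const 1)
  refine ⟨_, (Cm.of_computable c).comp (g := fun p : ((R × R) × R) × ℕ =>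
    Nat.pair (cov p.1.1.1 p.2) (Nat.pair (cov p.1.1.2 p.2) (cov p.1.2 p.2))) (by fun_prop),
    fun a => ?_⟩
  simp only [e, Nat.unpair_pair, dec_cov, List.reverse_reverse, ofFn_eq]
  refine exists_congr (fun w => forall_congr' (fun n => ?_))
  cases Q _ <;> simp

theorem fw_encode (x : R) {n j : ℕ} (h : j < n) :
    fw (Encodable.encode ((List.range n).map x)) j = x j := by
  simp [fw, dec_encode, List.getD_eq_getElem?_getD, h]

theorem join_congr {x y x' y' : R} {n : ℕ} (h1 : ∀ j < n, x j = x' j) (h2 : ∀ j < n, y j = y' j) :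
    ∀ j < n, join x y j = join x' y' j := by
  intro j hj
  unfold join
  rw [h1 (j / 2) (by omega), h2 (j / 2) (by omega)]

theorem Sig.fs {S : R → R → Prop} (h : Sig (fun p : R × R => S p.1 p.2)) : FS S := by
  obtain ⟨r, c, h1, h2⟩ := h.nf
  have c1 : Cm (fun n : ℕ => r (cov (join (join (fw (p1 n)) (fw (p1 (p2 n)))) (fw (p2 (p2 n))))
      (len (p1 n))) (p1 (len (p1 n)))) := Cm.of_computable₂ c (by fun_prop) (by fun_prop)
  have c2 : Computable (fun l : List ℕ × List ℕ × List ℕ => Nat.pair (Encodable.encode l.1)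
      (Nat.pair (Encodable.encode l.2.1) (Encodable.encode l.2.2))) :=
    c_pair (Computable.encode.comp Computable.fst)
      (c_pair (Computable.encode.comp (Computable.fst.comp Computable.snd))
        (Computable.encode.comp (Computable.snd.comp Computable.snd)))
  have c3 := (Primrec.beq.comp Primrec.id (Primrec.const (0 : ℕ))).to_comp.comp
    (c1.computable.comp c2)
  refine ⟨_, c3, fun x y => ?_⟩
  have key : ∀ (w : R) (n : ℕ), cov (join (join (fw (Encodable.encode ((List.range n).map x)))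
      (fw (Encodable.encode ((List.range n).map y))))
      (fw (Encodable.encode ((List.range n).map w)))) n = cov (join (join x y) w) n :=
    fun w n => cov_congr (join_congr (join_congr (fun j hj => fw_encode x hj)
      (fun j hj => fw_encode y hj)) (fun j hj => fw_encode w hj))
  simp only [p1_pair, p2_pair, ofFn_eq, len, dec_encode, List.length_map, List.length_range, key,
    id, beq_iff_eq]
  constructor
  · intro hs
    obtain ⟨w, hw⟩ := h1 (x, y) hs
    exact ⟨w, fun n => hw n _⟩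
  · rintro ⟨w, hw⟩
    refine h2 (x, y) w (fun j m0 => ⟨Nat.pair j m0, Nat.right_le_pair _ _, ?_⟩)
    have := hw (Nat.pair j m0)
    rwa [p1_pair] at this

end Pool.Agent.Lib.MP_324817_lc
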